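import Mathlib

open MeasureTheory ProbabilityTheory Set Filter
open scoped ENNReal NNReal

namespace Pool.Agent.Q287.JR

/-! Decomposition of infinite products of a fixed probability measure. -/

section Decomp

variable {A κ ι : Type*} [MeasurableSpace A] (ρ : Measure A) [IsProbabilityMeasure ρ]

/-- glue a value and a family into a family indexed by `Option κ` -/
def glueO (p : A × (κ → A)) : Option κ → A := fun o => o.elim p.1 p.2

omit [MeasurableSpace A] in
@[simp] lemma glueO_none (p : A × (κ → A)) : glueO p none = p.1 := rfl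
omit [MeasurableSpace A] in
@[simp] lemma glueO_some (p : A × (κ → A)) (k : κ) : glueO p (some k) = p.2 k := rfl

lemma measurable_glueO : Measurable (glueO : A × (κ → A) → Option κ → A) := by
  refine measurable_pi_lambda _ fun o => ?_
  cases o with
  | none => exact measurable_fst
  | some k => exact (measurable_pi_apply k).comp measurable_snd

lemma option_prod : (ρ.prod (Measure.infinitePi (fun _ : κ => ρ))).map glueO =
    Measure.infinitePi (fun _ : Option κ => ρ) := by
  classical
  refine Measure.eq_infinitePi _ fun s t ht => ?_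
  rw [Measure.map_apply measurable_glueO (MeasurableSet.pi (Finset.countable_toSet s)
    fun i _ => ht i)]
  have hpre : glueO ⁻¹' (Set.pi (s : Set (Option κ)) t) =
      (if none ∈ s then t none else univ) ×ˢ
        (Set.pi ((Finset.eraseNone s : Finset κ) : Set κ) (fun k => t (some k))) := by
    ext ⟨a, f⟩
    simp only [mem_preimage, Set.mem_pi, mem_prod]
    constructor
    · intro h
      refine ⟨?_, ?_⟩
      · split_ifs with h0
        · exact h none (by simpa using h0)
        · trivial
      · intro k hk
        have hk' : some k ∈ s := by simpa using hk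
        exact h (some k) (by simpa using hk')
    · rintro ⟨h1, h2⟩ o ho
      cases o with
      | none =>
        have h0 : none ∈ s := by simpa using ho
        rw [if_pos h0] at h1
        exact h1
      | some k =>
        have hk' : some k ∈ s := by simpa using ho
        exact h2 k (by simpa using hk')
  rw [hpre, Measure.prod_prod, Measure.infinitePi_pi _ (fun i _ => ht _)]
  by_cases h0 : none ∈ s
  · rw [if_pos h0]
    have hs : s = Finset.insertNone (Finset.eraseNone s) := by
      rw [Finset.insertNone_eraseNone]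
      exact (Finset.insert_eq_of_mem h0).symm
    conv_rhs => rw [hs]
    rw [Finset.prod_insertNone]
  · rw [if_neg h0, measure_univ, one_mul]
    have hs : s = (Finset.eraseNone s).map Function.Embedding.some := by
      rw [Finset.map_some_eraseNone]
      exact (Finset.erase_eq_of_notMem h0).symm
    conv_rhs => rw [hs]
    rw [Finset.prod_map]
    rfl

variable (e : Option κ ≃ ι)

/-- splitting map -/
def splitE (e : Option κ ≃ ι) (ω : ι → A) : A × (κ → A) := (ω (e none), fun k => ω (e (some k)))

lemma measurable_splitE : Measurable (splitE e : (ι → A) → A × (κ → A)) := by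
  unfold splitE
  fun_prop

lemma measurePreserving_splitE :
    MeasurePreserving (splitE e : (ι → A) → A × (κ → A))
      (Measure.infinitePi (fun _ : ι => ρ))
      (ρ.prod (Measure.infinitePi (fun _ : κ => ρ))) := by
  refine ⟨measurable_splitE e, ?_⟩
  rw [← Measure.infinitePi_map_piCongrLeft (fun _ : ι => ρ) e]
  rw [Measure.map_map (measurable_splitE e) (by fun_prop), ← option_prod ρ,
    Measure.map_map ((measurable_splitE e).comp (by fun_prop)) measurable_glueO]
  have : (splitE e ∘ (MeasurableEquiv.piCongrLeft (fun _ : ι => A) e)) ∘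
      (glueO : A × (κ → A) → Option κ → A) = id := by
    funext p
    refine Prod.ext ?_ ?_
    · simp only [splitE, Function.comp_apply, id]
      have := MeasurableEquiv.piCongrLeft_apply_apply (β := fun _ : ι => A) e (glueO p) none
      rw [this]; rfl
    · funext k
      simp only [splitE, Function.comp_apply, id]
      have := MeasurableEquiv.piCongrLeft_apply_apply (β := fun _ : ι => A) e (glueO p) (some k)
      rw [this]; rfl
  rw [this, Measure.map_id]

end Decomp

/-- `Option ℕ ≃ ℕ` -/
def eNat : Option ℕ ≃ ℕ where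
  toFun o := o.elim 0 Nat.succ
  invFun n := Nat.casesOn n none some
  left_inv o := by cases o <;> rfl
  right_inv n := by cases n <;> rfl

/-- `Option (ℕ × List ℕ) ≃ List ℕ` -/
def eList : Option (ℕ × List ℕ) ≃ List ℕ where
  toFun o := o.elim [] (fun p => p.1 :: p.2)
  invFun l := match l with
    | [] => none
    | k :: v => some (k, v)
  left_inv o := by cases o <;> rfl
  right_inv l := by cases l <;> rfl

section Nat

variable {S : Type*} [MeasurableSpace S] (Q : Measure S) [IsProbabilityMeasure Q]

lemma lintegral_cons {G : (ℕ → S) → ℝ≥0∞} {g : S × (ℕ → S) → ℝ≥0∞}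
    (hg : Measurable g)
    (hG : ∀ f, G f = g (f 0, fun n => f (n + 1))) :
    ∫⁻ f, G f ∂(Measure.infinitePi (fun _ : ℕ => Q)) =
      ∫⁻ y, ∫⁻ f, g (y, f) ∂(Measure.infinitePi (fun _ : ℕ => Q)) ∂Q := by
  have h := measurePreserving_splitE Q eNat
  rw [← lintegral_prod g hg.aemeasurable, ← h.map_eq, lintegral_map hg h.measurable]
  refine lintegral_congr fun f => ?_
  rw [hG f]
  rfl

/-- integral of `h (∑_{k<r} s (f k))` -/
noncomputable def NN (s : S → ℝ) (r : ℕ) (h : ℝ → ℝ≥0∞) : ℝ≥0∞ :=
  ∫⁻ f, h (∑ k ∈ Finset.range r, s (f k)) ∂(Measure.infinitePi (fun _ : ℕ => Q))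

variable {s : S → ℝ} {c : S → ℝ≥0∞} {h : ℝ → ℝ≥0∞}

lemma measurable_sum_range (hs : Measurable s) (r : ℕ) :
    Measurable (fun f : ℕ → S => ∑ k ∈ Finset.range r, s (f k)) :=
  Finset.measurable_sum _ fun k _ => hs.comp (measurable_pi_apply k)

lemma NN_succ (hs : Measurable s) (hh : Measurable h) (r : ℕ) :
    NN Q s (r + 1) h = ∫⁻ y, NN Q s r (fun t => h (s y + t)) ∂Q := by
  unfold NN
  rw [lintegral_cons Q (g := fun p => h (s p.1 + ∑ k ∈ Finset.range r, s (p.2 k)))]
  · exact hh.comp ((hs.comp measurable_fst).add
      ((measurable_sum_range hs r).comp measurable_snd))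
  · intro f
    rw [Finset.sum_range_succ', add_comm]

lemma measurable_NN_shift (hs : Measurable s) (hh : Measurable h) (r : ℕ) :
    Measurable (fun y => NN Q s r (fun t => h (s y + t))) := by
  unfold NN
  refine Measurable.lintegral_prod_right' (f := fun p : S × (ℕ → S) =>
    h (s p.1 + ∑ k ∈ Finset.range r, s (p.2 k))) ?_
  exact hh.comp ((hs.comp measurable_fst).add ((measurable_sum_range hs r).comp measurable_snd))

lemma mecke_fixed (hs : Measurable s) (hc : Measurable c) : ∀ (r : ℕ) (h : ℝ → ℝ≥0∞),
    Measurable h →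
    ∫⁻ f, h (∑ k ∈ Finset.range r, s (f k)) * ∑ k ∈ Finset.range r, c (f k)
        ∂(Measure.infinitePi (fun _ : ℕ => Q)) =
      r * ∫⁻ y, c y * NN Q s (r - 1) (fun t => h (s y + t)) ∂Q := by
  intro r
  induction r with
  | zero => intro h hh; simp
  | succ r ih =>
    intro h hh
    have hm : Measurable (fun p : S × (ℕ → S) => h (s p.1 + ∑ k ∈ Finset.range r, s (p.2 k))) :=
      hh.comp ((hs.comp measurable_fst).add ((measurable_sum_range hs r).comp measurable_snd))
    have hcs : Measurable (fun f : ℕ → S => ∑ k ∈ Finset.range r, c (f k)) :=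
      Finset.measurable_sum _ fun k _ => hc.comp (measurable_pi_apply k)
    rw [lintegral_cons Q (g := fun p => h (s p.1 + ∑ k ∈ Finset.range r, s (p.2 k)) *
      (c p.1 + ∑ k ∈ Finset.range r, c (p.2 k)))]
    rotate_left
    · exact hm.mul ((hc.comp measurable_fst).add (hcs.comp measurable_snd))
    · intro f
      rw [Finset.sum_range_succ', Finset.sum_range_succ', add_comm (s (f 0)), add_comm (c (f 0))]
    have h1 : ∀ y, ∫⁻ f, h (s y + ∑ k ∈ Finset.range r, s (f k)) *
        (c y + ∑ k ∈ Finset.range r, c (f k)) ∂(Measure.infinitePi (fun _ : ℕ => Q)) =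
        c y * NN Q s r (fun t => h (s y + t)) +
        r * ∫⁻ y', c y' * NN Q s (r - 1) (fun t => h (s y + (s y' + t))) ∂Q := by
      intro y
      have hmy : Measurable (fun f : ℕ → S => h (s y + ∑ k ∈ Finset.range r, s (f k))) :=
        hm.comp (measurable_const.prodMk measurable_id)
      rw [← ih (fun t => h (s y + t)) (hh.comp (measurable_const.add measurable_id))]
      rw [NN, ← lintegral_const_mul _ hmy, ← lintegral_add_left (hmy.const_mul _)]
      refine lintegral_congr fun f => ?_
      ring
    simp only [h1]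
    have hcm : Measurable (fun y => c y * NN Q s r (fun t => h (s y + t))) :=
      hc.mul (measurable_NN_shift Q hs hh r)
    rw [lintegral_add_left hcm, Nat.add_sub_cancel]
    have h2 : ∫⁻ y, (r : ℝ≥0∞) * ∫⁻ y', c y' *
          NN Q s (r - 1) (fun t => h (s y + (s y' + t))) ∂Q ∂Q =
        r * ∫⁻ y, c y * NN Q s r (fun t => h (s y + t)) ∂Q := by
      rcases Nat.eq_zero_or_pos r with hr0 | hrpos
      · subst hr0; simp
      obtain ⟨q, rfl⟩ : ∃ q, r = q + 1 := ⟨r - 1, by omega⟩
      have hmm : Measurable (fun p : S × S => c p.2 *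
          NN Q s q (fun t => h (s p.1 + (s p.2 + t)))) := by
        refine (hc.comp measurable_snd).mul ?_
        unfold NN
        refine Measurable.lintegral_prod_right' (f := fun p : (S × S) × (ℕ → S) =>
          h (s p.1.1 + (s p.1.2 + ∑ k ∈ Finset.range q, s (p.2 k)))) ?_
        refine hh.comp ?_
        refine (hs.comp (measurable_fst.comp measurable_fst)).add
          ((hs.comp (measurable_snd.comp measurable_fst)).add
            ((measurable_sum_range hs q).comp measurable_snd))
      rw [lintegral_const_mul _ (by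
        simp only [Nat.add_sub_cancel]
        exact hmm.lintegral_prod_right')]
      congr 1
      simp only [Nat.add_sub_cancel]
      rw [lintegral_lintegral_swap hmm.aemeasurable]
      refine lintegral_congr fun y' => ?_
      rw [lintegral_const_mul _ (by
        unfold NN
        refine Measurable.lintegral_prod_right' (f := fun p : S × (ℕ → S) =>
          h (s p.1 + (s y' + ∑ k ∈ Finset.range q, s (p.2 k)))) ?_
        exact hh.comp ((hs.comp measurable_fst).add (measurable_const.add
            ((measurable_sum_range hs q).comp measurable_snd))))]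
      congr 1
      have hh' : Measurable (fun t => h (s y' + t)) :=
        hh.comp (measurable_const.add measurable_id)
      rw [NN_succ Q hs hh']
      refine lintegral_congr fun y => ?_
      congr 1
      funext t
      show h (s y + (s y' + t)) = h (s y' + (s y + t))
      rw [← add_assoc, ← add_assoc, add_comm (s y)]
    rw [h2]
    push_cast
    ring

end Nat

section Gen

variable {S : Type*} [MeasurableSpace S]

/-- one generation: a Poisson number and an iid family -/
noncomputable def Gen (l : ℝ≥0) (Q : Measure S) : Measure (ℕ × (ℕ → S)) :=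
  (poissonMeasure l).prod (Measure.infinitePi (fun _ : ℕ => Q))

instance (l : ℝ≥0) (Q : Measure S) [IsProbabilityMeasure Q] : IsProbabilityMeasure (Gen l Q) := by
  unfold Gen; infer_instance

/-- random sum -/
noncomputable def rs (s : S → ℝ) (q : ℕ × (ℕ → S)) : ℝ := ∑ k ∈ Finset.range q.1, s (q.2 k)

/-- random sum in `ℝ≥0∞` -/
noncomputable def rse (c : S → ℝ≥0∞) (q : ℕ × (ℕ → S)) : ℝ≥0∞ :=
  ∑ k ∈ Finset.range q.1, c (q.2 k)

lemma measurable_rs {s : S → ℝ} (hs : Measurable s) : Measurable (rs s) := by
  unfold rs
  refine measurable_from_prod_countable_right fun r => ?_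
  exact measurable_sum_range hs r

lemma measurable_rse {c : S → ℝ≥0∞} (hc : Measurable c) : Measurable (rse c) := by
  unfold rse
  refine measurable_from_prod_countable_right fun r => ?_
  exact Finset.measurable_sum (Finset.range r) (f := fun k (f : ℕ → S) => c (f k))
    fun k _ => hc.comp (measurable_pi_apply k)

lemma lintegral_poisson (l : ℝ≥0) (g : ℕ → ℝ≥0∞) :
    ∫⁻ r, g r ∂(poissonMeasure l) =
      ∑' r, ENNReal.ofReal (Real.exp (-l) * l ^ r / (r.factorial : ℝ)) * g r := by
  rw [poissonMeasure, lintegral_sum_measure]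
  refine tsum_congr fun r => ?_
  rw [lintegral_smul_measure, lintegral_dirac]
  rfl

lemma poisson_shift (l : ℝ≥0) (g : ℕ → ℝ≥0∞) :
    ∫⁻ r, (r : ℝ≥0∞) * g (r - 1) ∂(poissonMeasure l) = l * ∫⁻ r, g r ∂(poissonMeasure l) := by
  rw [lintegral_poisson, lintegral_poisson, ← ENNReal.tsum_mul_left,
    tsum_eq_zero_add' ENNReal.summable]
  rw [Nat.cast_zero, zero_mul, mul_zero, zero_add]
  refine tsum_congr fun r => ?_
  rw [Nat.add_sub_cancel, ← mul_assoc, ← mul_assoc]
  congr 1
  have h1 : ((r + 1 : ℕ) : ℝ≥0∞) = ENNReal.ofReal ((r + 1 : ℕ) : ℝ) := by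
    rw [ENNReal.ofReal_natCast]
  have h2 : (l : ℝ≥0∞) = ENNReal.ofReal (l : ℝ) := (ENNReal.ofReal_coe_nnreal).symm
  rw [h1, h2, ← ENNReal.ofReal_mul (by positivity), ← ENNReal.ofReal_mul (by positivity)]
  congr 1
  rw [Nat.factorial_succ]
  push_cast
  have : ((r.factorial : ℕ) : ℝ) ≠ 0 := by positivity
  field_simp
  ring

theorem mecke (l : ℝ≥0) (Q : Measure S) [IsProbabilityMeasure Q] {s : S → ℝ} {c : S → ℝ≥0∞}
    {h : ℝ → ℝ≥0∞} (hs : Measurable s) (hc : Measurable c) (hh : Measurable h) :
    ∫⁻ q, h (rs s q) * rse c q ∂(Gen l Q) =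
      l * ∫⁻ y, c y * ∫⁻ q, h (s y + rs s q) ∂(Gen l Q) ∂Q := by
  have hm : Measurable (fun q : ℕ × (ℕ → S) => h (rs s q) * rse c q) :=
    (hh.comp (measurable_rs hs)).mul (measurable_rse hc)
  unfold Gen
  rw [lintegral_prod _ hm.aemeasurable]
  have h1 : ∀ r : ℕ, ∫⁻ f, h (rs s (r, f)) * rse c (r, f)
      ∂(Measure.infinitePi (fun _ : ℕ => Q)) =
      r * ∫⁻ y, c y * NN Q s (r - 1) (fun t => h (s y + t)) ∂Q := fun r =>
    mecke_fixed Q hs hc r h hh
  simp only [h1]
  rw [poisson_shift l (fun r => ∫⁻ y, c y * NN Q s r (fun t => h (s y + t)) ∂Q)]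
  congr 1
  have hmm : Measurable (fun p : ℕ × S => c p.2 * NN Q s p.1 (fun t => h (s p.2 + t))) := by
    refine measurable_from_prod_countable_right fun r => ?_
    exact hc.mul (measurable_NN_shift Q hs hh r)
  rw [lintegral_lintegral_swap (f := fun r y => c y * NN Q s r (fun t => h (s y + t)))
    hmm.aemeasurable]
  refine lintegral_congr fun y => ?_
  rw [lintegral_const_mul _ (measurable_of_countable _)]
  congr 1
  rw [lintegral_prod (fun q : ℕ × (ℕ → S) => h (s y + rs s q))
    (hh.comp (measurable_const.add (measurable_rs hs))).aemeasurable]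
  rfl

lemma Gen_map {S' : Type*} [MeasurableSpace S'] (l : ℝ≥0) (Q : Measure S)
    [IsProbabilityMeasure Q] {g : S → S'} (hg : Measurable g) :
    (Gen l Q).map (fun q => (q.1, fun n => g (q.2 n))) = Gen l (Q.map g) := by
  have : IsProbabilityMeasure (Q.map g) := Measure.isProbabilityMeasure_map hg.aemeasurable
  unfold Gen
  rw [← Measure.infinitePi_map_pi (fun _ : ℕ => Q) (f := fun _ => g) (fun _ => hg)]
  have h2 : (poissonMeasure l).prod ((Measure.infinitePi (fun _ : ℕ => Q)).map
      (fun x i => g (x i))) = ((poissonMeasure l).map id).prod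
        ((Measure.infinitePi (fun _ : ℕ => Q)).map (fun x i => g (x i))) := by
    rw [Measure.map_id]
  rw [h2, Measure.map_prod_map _ _ measurable_id (by fun_prop)]
  rfl

end Gen

end Pool.Agent.Q287.JR
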