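import Pool.Agent.Q287.JR.JR9

open MeasureTheory ProbabilityTheory Set Filter
open scoped ENNReal NNReal Topology

set_option linter.unusedSectionVars false

namespace Pool.Agent.Q287.JR

variable {l : ℝ≥0} {β : ℝ} {D : Measure ℝ} [IsProbabilityMeasure D]

/-- generation sums -/
noncomputable def ZZ (β : ℝ) : ℕ → Tree Unit → ℝ
  | 0 => fun _ => 1
  | n + 1 => fun ω =>
    -(rs (fun ω' => aA β (Vp Unit β ω') (mk ω') * ZZ β n ω') (nR ω, sub ω))

lemma measurable_aVm {W : Tree Unit → ℝ} (hW : Measurable W) :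
    Measurable (fun ω' => aA β (Vp Unit β ω') (mk ω') * W ω') :=
  (measurable_aA measurable_Vp measurable_mk).mul hW

lemma measurable_ZZ : ∀ n, Measurable (ZZ β n)
  | 0 => measurable_const
  | n + 1 => by
    show Measurable (fun ω =>
      -(rs (fun ω' => aA β (Vp Unit β ω') (mk ω') * ZZ β n ω') (nR ω, sub ω)))
    exact ((measurable_rs (measurable_aVm (measurable_ZZ n))).comp
      (measurable_nR.prodMk measurable_sub)).neg

/-- representation of `ZZ` through root data and subtrees -/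
noncomputable def ZZ' (β : ℝ) : ℕ → (ℕ × Unit) × (ℕ → Tree Unit) → ℝ
  | 0 => fun _ => 1
  | n + 1 => fun p =>
    -(rs (fun ω' => aA β (Vp Unit β ω') (mk ω') * ZZ β n ω') (p.1.1, p.2))

lemma measurable_ZZ' : ∀ n, Measurable (ZZ' β n)
  | 0 => measurable_const
  | n + 1 => by
    show Measurable (fun p : (ℕ × Unit) × (ℕ → Tree Unit) =>
      -(rs (fun ω' => aA β (Vp Unit β ω') (mk ω') * ZZ β n ω') (p.1.1, p.2)))
    exact ((measurable_rs (measurable_aVm (measurable_ZZ n))).comp (by fun_prop)).neg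

lemma ZZ_rep (n : ℕ) (ω : Tree Unit) : ZZ β n ω = ZZ' β n ((nR ω, mrk ω), sub ω) := by
  cases n <;> rfl

/-- representation of the limit -/
noncomputable def VV' (β : ℝ) (p : (ℕ × Unit) × (ℕ → Tree Unit)) : ℝ :=
  1 / (1 + rs (fun ω' => sfun β (Vp Unit β ω') (mk ω')) (p.1.1, p.2))

lemma measurable_VV' : Measurable (VV' β) := by
  unfold VV'
  exact measurable_const.div (measurable_const.add
    ((measurable_rs (measurable_sV measurable_Vp)).comp (by fun_prop)))

lemma VV_rep (hβ : 0 ≤ β) (ω : Tree Unit) : Vp Unit β ω = VV' β ((nR ω, mrk ω), sub ω) :=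
  Vp_rec hβ ω

/-- the unit mark law -/
noncomputable abbrev mu1 : Measure Unit := Measure.dirac ()

lemma ind_ZV (hβ : 0 ≤ β) (n : ℕ) :
    Ind l D mu1 (fun ω => (ZZ β n ω, Vp Unit β ω)) :=
  ind_of_rep mu1 (V' := fun p => (ZZ' β n p, VV' β p))
    ((measurable_ZZ' n).prodMk measurable_VV') (fun ω => by rw [ZZ_rep, VV_rep hβ])

/-- weighted first moments of the generation sums -/
noncomputable def AA (l : ℝ≥0) (β : ℝ) (D : Measure ℝ) (n : ℕ) (w : ℝ → ℝ≥0∞) : ℝ≥0∞ :=
  ∫⁻ ω, ‖ZZ β n ω‖ₑ * w (Vp Unit β ω) ∂(PT l D mu1)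

lemma AA_step (hβ : 0 ≤ β) (n : ℕ) {w : ℝ → ℝ≥0∞} (hw : Measurable w) :
    AA l β D (n + 1) w ≤
      AA l β D n (Kop l β D ((PT l D mu1).map (Vp Unit β)) (c1 β) w) := by
  set P := PT l D mu1 with hP
  have hZV : Measurable (fun ω => (ZZ β n ω, Vp Unit β ω)) :=
    (measurable_ZZ n).prodMk measurable_Vp
  set γ := P.map (fun ω => (ZZ β n ω, Vp Unit β ω)) with hγ
  have hpγ : IsProbabilityMeasure γ := Measure.isProbabilityMeasure_map hZV.aemeasurable
  have hμ : IsFix l β D (P.map (Vp Unit β)) :=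
    isFix_of_rec mu1 measurable_Vp (Vp_mem hβ) (Vp_rec hβ)
  have hpμ : IsProbabilityMeasure (P.map (Vp Unit β)) :=
    Measure.isProbabilityMeasure_map measurable_Vp.aemeasurable
  have hmarg : γ.map Prod.snd = P.map (Vp Unit β) := by
    rw [hγ, Measure.map_map measurable_snd hZV]
    rfl
  have hb := hom_bound (γ := γ) (X := Prod.snd) hβ hμ measurable_snd hmarg
    (Δ := Prod.fst) measurable_fst hw
  have hK : Measurable (Kop l β D (P.map (Vp Unit β)) (c1 β) w) := measurable_Kop measurable_c1 hw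
  have hright : ∫⁻ y, ‖y.1‖ₑ * Kop l β D (P.map (Vp Unit β)) (c1 β) w y.2 ∂γ =
      AA l β D n (Kop l β D (P.map (Vp Unit β)) (c1 β) w) := by
    have hmm : Measurable (fun y : ℝ × ℝ => ‖y.1‖ₑ *
        Kop l β D (P.map (Vp Unit β)) (c1 β) w y.2) :=
      Measurable.mul (by fun_prop) (hK.comp measurable_snd)
    rw [hγ, lintegral_map hmm hZV]
    rfl
  rw [← hright]
  refine le_trans (le_of_eq ?_) hb
  -- left side
  have hs1 : Measurable (fun z : (ℝ × ℝ) × (ℝ × ℝ) => sfun β z.1.2 z.2) :=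
    msf (by fun_prop) (by fun_prop)
  have hs2 : Measurable (fun z : (ℝ × ℝ) × (ℝ × ℝ) => aA β z.1.2 z.2 * z.1.1) :=
    (measurable_aA (by fun_prop) (by fun_prop)).mul (by fun_prop)
  have hG : Measurable (fun q : ℕ × (ℕ → (ℝ × ℝ) × (ℝ × ℝ)) =>
      w (1 / (1 + rs (fun z : (ℝ × ℝ) × (ℝ × ℝ) => sfun β z.1.2 z.2) q)) *
      ‖rs (fun z : (ℝ × ℝ) × (ℝ × ℝ) => aA β z.1.2 z.2 * z.1.1) q‖ₑ) :=
    (hw.comp (measurable_const.div (measurable_const.add (measurable_rs hs1)))).mul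
      (measurable_rs hs2).enorm
  have hh : Measurable (fun ω : Tree Unit => ((ZZ β n ω, Vp Unit β ω), mk ω)) :=
    hZV.prodMk measurable_mk
  have hI : P.map (fun ω : Tree Unit => ((ZZ β n ω, Vp Unit β ω), mk ω)) =
      γ.prod (D.prod D) := ind_ZV hβ n
  have hmm2 : Measurable (fun q : ℕ × (ℕ → Tree Unit) => ((q.1, fun k =>
      ((ZZ β n (q.2 k), Vp Unit β (q.2 k)), mk (q.2 k))) : ℕ × (ℕ → (ℝ × ℝ) × (ℝ × ℝ)))) := by
    refine Measurable.prodMk measurable_fst ?_
    refine measurable_pi_lambda _ fun k => ?_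
    exact hh.comp ((measurable_pi_apply k).comp measurable_snd)
  have hGc : Measurable (fun a : ℕ × (ℕ → Tree Unit) =>
      w (1 / (1 + rs (fun z : (ℝ × ℝ) × (ℝ × ℝ) => sfun β z.1.2 z.2)
        (a.1, fun k => ((ZZ β n (a.2 k), Vp Unit β (a.2 k)), mk (a.2 k))))) *
      ‖rs (fun z : (ℝ × ℝ) × (ℝ × ℝ) => aA β z.1.2 z.2 * z.1.1)
        (a.1, fun k => ((ZZ β n (a.2 k), Vp Unit β (a.2 k)), mk (a.2 k)))‖ₑ) := hG.comp hmm2
  rw [← hI, ← Gen_map l P hh, lintegral_map hG hmm2, ← tree_gen,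
    lintegral_map hGc (measurable_nR.prodMk measurable_sub)]
  unfold AA
  refine lintegral_congr fun ω => ?_
  rw [mul_comm]
  congr 1
  · conv_lhs => rw [Vp_rec hβ ω]
    rfl
  · show ‖-(rs (fun ω' => aA β (Vp Unit β ω') (mk ω') * ZZ β n ω') (nR ω, sub ω))‖ₑ = _
    rw [enorm_neg]
    rfl

lemma AA_iter (hβ : 0 ≤ β) : ∀ (n : ℕ) {w : ℝ → ℝ≥0∞}, Measurable w →
    AA l β D n w ≤ AA l β D 0 ((Kop l β D ((PT l D mu1).map (Vp Unit β)) (c1 β))^[n] w)
  | 0, w, _ => le_rfl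
  | n + 1, w, hw => by
    have hpμ : IsProbabilityMeasure ((PT l D mu1).map (Vp Unit β)) :=
      Measure.isProbabilityMeasure_map measurable_Vp.aemeasurable
    rw [Function.iterate_succ_apply]
    exact (AA_step hβ n hw).trans (AA_iter hβ n (measurable_Kop measurable_c1 hw))

theorem AA_bound (hβ : 0 ≤ β) (hD : ∫⁻ x, ENNReal.ofReal (x ^ 2) ∂D ≠ ∞) :
    ∑' n, AA l β D n (fun _ => 1) ≠ ∞ := by
  have hμ : IsFix l β D ((PT l D mu1).map (Vp Unit β)) :=
    isFix_of_rec mu1 measurable_Vp (Vp_mem hβ) (Vp_rec hβ)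
  have hpμ : IsProbabilityMeasure ((PT l D mu1).map (Vp Unit β)) :=
    Measure.isProbabilityMeasure_map measurable_Vp.aemeasurable
  obtain ⟨θ, hθ0, hθ1, hθ⟩ := It_c1_bound (l := l) hβ hD
  set κ := kap l β D with hκ
  have hκfin : κ ≠ ∞ := kap_ne_top hD
  have hb : ∀ n, AA l β D n ENNReal.ofReal ≤ (1 + κ) * ENNReal.ofReal (θ ^ n) := by
    intro n
    refine (AA_iter hβ n ENNReal.measurable_ofReal).trans ?_
    rw [iter_eq_It]
    unfold AA
    calc ∫⁻ ω, ‖ZZ β 0 ω‖ₑ * It l β D ((PT l D mu1).map (Vp Unit β)) (c1 β) n (Vp Unit β ω)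
          ∂(PT l D mu1)
        ≤ ∫⁻ _, (1 + κ) * ENNReal.ofReal (θ ^ n) ∂(PT l D mu1) := by
          refine lintegral_mono fun ω => ?_
          have h1 : ‖ZZ β 0 ω‖ₑ = 1 := by
            show ‖(1 : ℝ)‖ₑ = 1
            simp
          rw [h1, one_mul]
          refine (hθ _ hμ n _ (Vp_mem hβ ω).1).trans ?_
          calc (1 + κ) * ENNReal.ofReal (θ ^ n) * ENNReal.ofReal (Vp Unit β ω)
              ≤ (1 + κ) * ENNReal.ofReal (θ ^ n) * 1 := by
                gcongr
                rw [← ENNReal.ofReal_one]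
                exact ENNReal.ofReal_le_ofReal (Vp_mem hβ ω).2
            _ = _ := mul_one _
      _ = (1 + κ) * ENNReal.ofReal (θ ^ n) := by simp
  have hb1 : ∀ n, AA l β D (n + 1) (fun _ => 1) ≤ κ * (1 + κ) * ENNReal.ofReal (θ ^ n) := by
    intro n
    refine (AA_step hβ n measurable_const).trans ?_
    calc AA l β D n (Kop l β D ((PT l D mu1).map (Vp Unit β)) (c1 β) fun _ => 1)
        ≤ ∫⁻ ω, κ * (‖ZZ β n ω‖ₑ * ENNReal.ofReal (Vp Unit β ω)) ∂(PT l D mu1) := by
          unfold AA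
          refine lintegral_mono fun ω => ?_
          calc ‖ZZ β n ω‖ₑ *
                Kop l β D ((PT l D mu1).map (Vp Unit β)) (c1 β) (fun _ => 1) (Vp Unit β ω)
              ≤ ‖ZZ β n ω‖ₑ * (κ * ENNReal.ofReal (Vp Unit β ω)) :=
                mul_le_mul' le_rfl (Kop_one_le hβ (Vp_mem hβ ω).1)
            _ = _ := by ring
      _ = κ * AA l β D n ENNReal.ofReal := by
          rw [lintegral_const_mul' _ _ hκfin]
          rfl
      _ ≤ κ * ((1 + κ) * ENNReal.ofReal (θ ^ n)) := by gcongr; exact hb n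
      _ = _ := by ring
  have h0 : AA l β D 0 (fun _ => 1) ≤ 1 := by
    unfold AA
    have : ∀ ω, ‖ZZ β 0 ω‖ₑ * 1 = 1 := fun ω => by
      show ‖(1 : ℝ)‖ₑ * 1 = 1
      simp
    simp only [this]
    simp
  rw [tsum_eq_zero_add' ENNReal.summable]
  refine ENNReal.add_ne_top.2 ⟨ne_of_lt (lt_of_le_of_lt h0 (by simp)), ?_⟩
  have hgeom : ∑' n : ℕ, ENNReal.ofReal (θ ^ n) ≠ ∞ := by
    rw [← ENNReal.ofReal_tsum_of_nonneg (fun n => by positivity)
      (summable_geometric_of_lt_one hθ0.le hθ1)]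
    exact ENNReal.ofReal_ne_top
  refine ne_of_lt (lt_of_le_of_lt (ENNReal.tsum_le_tsum hb1) ?_)
  rw [ENNReal.tsum_mul_left]
  exact ENNReal.mul_lt_top (ENNReal.mul_lt_top hκfin.lt_top
    (by simpa using hκfin.lt_top)) hgeom.lt_top

/-- the limit of the first coordinate -/
noncomputable def UU (β : ℝ) (ω : Tree Unit) : ℝ :=
  (∑' n, ENNReal.ofReal (ZZ β n ω)).toReal - (∑' n, ENNReal.ofReal (-ZZ β n ω)).toReal

/-- representation -/
noncomputable def UU' (β : ℝ) (p : (ℕ × Unit) × (ℕ → Tree Unit)) : ℝ :=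
  (∑' n, ENNReal.ofReal (ZZ' β n p)).toReal - (∑' n, ENNReal.ofReal (-ZZ' β n p)).toReal

lemma measurable_UU : Measurable (UU β) := by
  unfold UU
  exact (Measurable.tsum fun n => (measurable_ZZ n).ennreal_ofReal).ennreal_toReal.sub
    (Measurable.tsum fun n => (measurable_ZZ n).neg.ennreal_ofReal).ennreal_toReal

lemma measurable_UU' : Measurable (UU' β) := by
  unfold UU'
  exact (Measurable.tsum fun n => (measurable_ZZ' n).ennreal_ofReal).ennreal_toReal.sub
    (Measurable.tsum fun n => (measurable_ZZ' n).neg.ennreal_ofReal).ennreal_toReal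

lemma UU_rep (ω : Tree Unit) : UU β ω = UU' β ((nR ω, mrk ω), sub ω) := by
  unfold UU UU'
  simp only [ZZ_rep]

lemma tsum_split {z : ℕ → ℝ} (hz : Summable fun n => |z n|) :
    (∑' n, ENNReal.ofReal (z n)).toReal - (∑' n, ENNReal.ofReal (-z n)).toReal = ∑' n, z n := by
  rw [ENNReal.tsum_toReal_eq (fun n => ENNReal.ofReal_ne_top),
    ENNReal.tsum_toReal_eq (fun n => ENNReal.ofReal_ne_top)]
  simp only [ENNReal.toReal_ofReal']
  have h1 : Summable (fun n => max (z n) 0) :=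
    Summable.of_nonneg_of_le (fun n => le_max_right _ _)
      (fun n => max_le (le_abs_self _) (abs_nonneg _)) hz
  have h2 : Summable (fun n => max (-z n) 0) :=
    Summable.of_nonneg_of_le (fun n => le_max_right _ _)
      (fun n => max_le (neg_le_abs _) (abs_nonneg _)) hz
  rw [← h1.tsum_sub h2]
  refine tsum_congr fun n => ?_
  exact max_zero_sub_eq_self (z n)

lemma ae_summable (hβ : 0 ≤ β) (hD : ∫⁻ x, ENNReal.ofReal (x ^ 2) ∂D ≠ ∞) :
    ∀ᵐ ω ∂(PT l D mu1), Summable (fun n => |ZZ β n ω|) := by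
  have h := AA_bound (l := l) hβ hD
  have h1 : ∫⁻ ω, ∑' n, ‖ZZ β n ω‖ₑ ∂(PT l D mu1) ≠ ∞ := by
    rw [lintegral_tsum fun n => (measurable_ZZ n).enorm.aemeasurable]
    unfold AA at h
    simpa using h
  have h2 := ae_lt_top (Measurable.tsum fun n => (measurable_ZZ (β := β) n).enorm) h1
  filter_upwards [h2] with ω hω
  have h3 : Summable (fun n => ‖ZZ β n ω‖₊) := by
    rw [← ENNReal.tsum_coe_ne_top_iff_summable]
    exact hω.ne
  have := NNReal.summable_coe.2 h3
  simpa using this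

lemma UU_rec (ω : Tree Unit) (h0 : Summable (fun n => |ZZ β n ω|))
    (h : ∀ k, Summable (fun n => |ZZ β n (sub ω k)|)) :
    UU β ω = 1 - rs (fun ω' => aA β (Vp Unit β ω') (mk ω') * UU β ω') (nR ω, sub ω) := by
  have e0 : UU β ω = ∑' n, ZZ β n ω := tsum_split h0
  have ek : ∀ k, UU β (sub ω k) = ∑' n, ZZ β n (sub ω k) := fun k => tsum_split (h k)
  rw [e0, (summable_abs_iff.1 h0).tsum_eq_zero_add]
  have h1 : ∀ n, ZZ β (n + 1) ω = -(∑ k ∈ Finset.range (nR ω),
      aA β (Vp Unit β (sub ω k)) (mk (sub ω k)) * ZZ β n (sub ω k)) := fun n => rfl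
  simp only [h1]
  have h2 : ZZ β 0 ω = 1 := rfl
  rw [h2, tsum_neg, Summable.tsum_finsetSum
    (fun k _ => ((summable_abs_iff.1 (h k)).mul_left _))]
  rw [← sub_eq_add_neg]
  congr 1
  unfold rs
  refine Finset.sum_congr rfl fun k _ => ?_
  simp only
  rw [ek k, tsum_mul_left]

theorem exists_fix (hβ : 0 ≤ β) (hD : ∫⁻ x, ENNReal.ofReal (x ^ 2) ∂D ≠ ∞) :
    ∃ π : Measure (ℝ × ℝ), IsProbabilityMeasure π ∧ (∀ᵐ p ∂π, p.2 ∈ Icc (0 : ℝ) 1) ∧
      Integrable (fun p => p.1) π ∧ PhiL l β D π = π := by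
  set P := PT l D mu1 with hP
  have hUV : Measurable (fun ω => (UU β ω, Vp Unit β ω)) := measurable_UU.prodMk measurable_Vp
  refine ⟨P.map (fun ω => (UU β ω, Vp Unit β ω)),
    Measure.isProbabilityMeasure_map hUV.aemeasurable, ?_, ?_, ?_⟩
  · refine (ae_map_iff (p := fun p : ℝ × ℝ => p.2 ∈ Icc (0 : ℝ) 1) hUV.aemeasurable
      (measurable_snd measurableSet_Icc)).2 (Eventually.of_forall fun ω => Vp_mem hβ ω)
  · rw [integrable_map_measure (by fun_prop) hUV.aemeasurable]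
    refine ⟨(measurable_fst.comp hUV).aestronglyMeasurable, ?_⟩
    have hle : ∫⁻ ω, ‖UU β ω‖ₑ ∂P ≤ ∑' n, AA l β D n (fun _ => 1) := by
      have h1 : ∑' n, AA l β D n (fun _ => 1) = ∫⁻ ω, ∑' n, ‖ZZ β n ω‖ₑ ∂P := by
        rw [lintegral_tsum fun n => (measurable_ZZ n).enorm.aemeasurable]
        unfold AA
        simp [hP]
      rw [h1]
      refine lintegral_mono_ae ?_
      filter_upwards [ae_summable (l := l) hβ hD] with ω hω
      have e0 : UU β ω = ∑' n, ZZ β n ω := tsum_split hω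
      rw [e0]
      exact enorm_tsum_le_tsum_enorm
    exact lt_of_le_of_lt hle (AA_bound hβ hD).lt_top
  · -- fixed point
    have hInd : Ind l D mu1 (fun ω => (UU β ω, Vp Unit β ω)) :=
      ind_of_rep mu1 (V' := fun p => (UU' β p, VV' β p))
        (measurable_UU'.prodMk measurable_VV') (fun ω => by rw [UU_rep, VV_rep hβ])
    unfold Ind at hInd
    have hh : Measurable (fun ω : Tree Unit => ((UU β ω, Vp Unit β ω), mk ω)) :=
      hUV.prodMk measurable_mk
    have hmm2 : Measurable (fun q : ℕ × (ℕ → Tree Unit) => ((q.1, fun k =>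
        ((UU β (q.2 k), Vp Unit β (q.2 k)), mk (q.2 k))) : ℕ × (ℕ → (ℝ × ℝ) × (ℝ × ℝ)))) := by
      refine Measurable.prodMk measurable_fst ?_
      refine measurable_pi_lambda _ fun k => ?_
      exact hh.comp ((measurable_pi_apply k).comp measurable_snd)
    unfold PhiL
    rw [hP, ← hInd, ← Gen_map l _ hh, Measure.map_map measurable_PhiFun hmm2, ← tree_gen,
      Measure.map_map (measurable_PhiFun.comp hmm2) (measurable_nR.prodMk measurable_sub)]
    refine Measure.map_congr ?_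
    have hgood := ae_summable (l := l) (D := D) hβ hD
    have hsub : ∀ᵐ ω ∂(PT l D mu1), ∀ k, Summable (fun n => |ZZ β n (sub ω k)|) := by
      rw [ae_all_iff]
      intro k
      exact (tree_sub l D mu1 k).quasiMeasurePreserving.ae hgood
    filter_upwards [hgood, hsub] with ω h1 h2
    simp only [Function.comp_apply, PhiFun_eq]
    refine Prod.ext ?_ ?_
    · simp only
      rw [UU_rec ω h1 h2]
      rfl
    · simp only
      conv_rhs => rw [Vp_rec hβ ω]
      rfl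

end Pool.Agent.Q287.JR
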