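import Pool.Agent.Q287.JR.JR10

open MeasureTheory ProbabilityTheory Set Filter
open scoped ENNReal NNReal Topology

set_option linter.unusedSectionVars false

namespace Pool.Agent.Q287.JR

variable {l : ℝ≥0} {β : ℝ} {D : Measure ℝ} [IsProbabilityMeasure D]

/-! ### uniqueness among all laws when `l = 2α ≤ 1` -/

lemma Gen_all {S : Type*} [MeasurableSpace S] (Q : Measure S) [IsProbabilityMeasure Q]
    {C : Set S} (hC : MeasurableSet C) :
    Gen l Q {q | ∀ k < q.1, q.2 k ∈ C} = ENNReal.ofReal (Real.exp (-(l * (1 - Q.real C)))) := by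
  have hm : MeasurableSet {q : ℕ × (ℕ → S) | ∀ k < q.1, q.2 k ∈ C} := by
    have : {q : ℕ × (ℕ → S) | ∀ k < q.1, q.2 k ∈ C} =
        ⋃ r : ℕ, ({r} : Set ℕ) ×ˢ (Set.pi (Finset.range r : Set ℕ) (fun _ => C)) := by
      ext ⟨r, f⟩
      simp
    rw [this]
    refine MeasurableSet.iUnion fun r => (measurableSet_singleton r).prod ?_
    exact MeasurableSet.pi (Finset.countable_toSet _) fun _ _ => hC
  unfold Gen
  rw [Measure.prod_apply hm, lintegral_poisson]
  have h1 : ∀ r : ℕ, (Measure.infinitePi (fun _ : ℕ => Q)) (Prod.mk r ⁻¹'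
      {q : ℕ × (ℕ → S) | ∀ k < q.1, q.2 k ∈ C}) = (Q C) ^ r := by
    intro r
    have : (Prod.mk r ⁻¹' {q : ℕ × (ℕ → S) | ∀ k < q.1, q.2 k ∈ C}) =
        Set.pi (Finset.range r : Set ℕ) (fun _ => C) := by
      ext f; simp
    rw [this, Measure.infinitePi_pi _ (fun _ _ => hC)]
    simp
  simp only [h1]
  have hc : Q C = ENNReal.ofReal (Q.real C) := (ofReal_measureReal).symm
  rw [hc]
  have hc0 : 0 ≤ Q.real C := measureReal_nonneg
  have h2 : ∀ r : ℕ, ENNReal.ofReal (Real.exp (-l) * l ^ r / (r.factorial : ℝ)) *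
      ENNReal.ofReal (Q.real C) ^ r =
      ENNReal.ofReal (Real.exp (-l) * ((l * Q.real C) ^ r / (r.factorial : ℝ))) := by
    intro r
    rw [← ENNReal.ofReal_pow hc0, ← ENNReal.ofReal_mul (by positivity)]
    congr 1
    rw [mul_pow]
    ring
  simp only [h2]
  have hs := NormedSpace.expSeries_div_hasSum_exp ((l : ℝ) * Q.real C)
  rw [← Real.exp_eq_exp_ℝ] at hs
  rw [← ENNReal.ofReal_tsum_of_nonneg (fun r => by positivity) (hs.summable.mul_left _),
    tsum_mul_left, hs.tsum_eq, ← Real.exp_add]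
  congr 2
  ring

/-- diagonal set -/
def diagS : Set (ℝ × (ℝ × ℝ)) := {y | y.2.1 = y.2.2}

lemma measurableSet_diagS : MeasurableSet diagS :=
  measurableSet_eq_fun (by fun_prop) (by fun_prop)

lemma diag_step (Γ : Measure (ℝ × (ℝ × ℝ))) [IsProbabilityMeasure Γ] :
    Real.exp (-(l * (1 - Γ.real diagS))) ≤
      ((Gen l (Γ.prod (D.prod D))).map (F3 β)).real diagS := by
  have hC : MeasurableSet (Prod.fst ⁻¹' diagS : Set ((ℝ × (ℝ × ℝ)) × (ℝ × ℝ))) :=
    measurable_fst measurableSet_diagS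
  have hQ : (Γ.prod (D.prod D)).real (Prod.fst ⁻¹' diagS) = Γ.real diagS := by
    rw [← map_measureReal_apply measurable_fst measurableSet_diagS, Measure.map_fst_prod,
      measure_univ, one_smul]
  have h := Gen_all (l := l) (Γ.prod (D.prod D)) hC
  rw [hQ] at h
  have hle : {q : ℕ × (ℕ → (ℝ × (ℝ × ℝ)) × (ℝ × ℝ)) | ∀ k < q.1, q.2 k ∈ Prod.fst ⁻¹' diagS} ⊆
      F3 β ⁻¹' diagS := by
    intro q hq
    simp only [mem_ofPred_eq, mem_preimage, diagS] at hq ⊢
    simp only [F3, rs]
    congr 1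
    refine Finset.sum_congr rfl fun k hk => ?_
    rw [hq k (Finset.mem_range.1 hk)]
  have hprob : IsProbabilityMeasure ((Gen l (Γ.prod (D.prod D))).map (F3 β)) :=
    Measure.isProbabilityMeasure_map measurable_F3.aemeasurable
  rw [map_measureReal_apply measurable_F3 measurableSet_diagS]
  have h2 : ENNReal.ofReal (Real.exp (-(l * (1 - Γ.real diagS)))) ≤
      Gen l (Γ.prod (D.prod D)) (F3 β ⁻¹' diagS) := h ▸ measure_mono hle
  exact (ENNReal.ofReal_le_iff_le_toReal (measure_ne_top _ _)).1 h2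

lemma charFun_close2 {Γ : Measure (ℝ × (ℝ × ℝ))} [IsProbabilityMeasure Γ]
    (L : StrongDual ℝ (ℝ × ℝ)) :
    ‖charFunDual (Γ.map pr1) L - charFunDual (Γ.map pr2) L‖ ≤ 2 * (1 - Γ.real diagS) := by
  rw [charFunDual_apply, charFunDual_apply,
    integral_map measurable_pr1.aemeasurable (by fun_prop),
    integral_map measurable_pr2.aemeasurable (by fun_prop)]
  have hb : ∀ f : ℝ × (ℝ × ℝ) → ℝ, Measurable f →
      Integrable (fun y => Complex.exp ((f y : ℂ) * Complex.I)) Γ := by
    intro f hf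
    refine Integrable.of_bound (C := 1) (by fun_prop) (Eventually.of_forall fun y => ?_)
    rw [Complex.norm_exp_ofReal_mul_I]
  rw [← integral_sub (hb _ (by exact L.continuous.measurable.comp measurable_pr1))
    (hb _ (by exact L.continuous.measurable.comp measurable_pr2))]
  refine (norm_integral_le_integral_norm _).trans ?_
  have h1 : ∀ y, ‖Complex.exp (((L (pr1 y) : ℝ) : ℂ) * Complex.I) -
      Complex.exp (((L (pr2 y) : ℝ) : ℂ) * Complex.I)‖ ≤ diagSᶜ.indicator (fun _ => (2 : ℝ)) y := by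
    intro y
    by_cases hy : y ∈ diagS
    · have : pr1 y = pr2 y := by
        have hy' : y.2.1 = y.2.2 := hy
        simp [pr1, pr2, hy']
      rw [this, sub_self, norm_zero]
      exact indicator_nonneg (fun _ _ => by norm_num) _
    · rw [indicator_of_mem (by exact hy)]
      refine (norm_sub_le _ _).trans ?_
      rw [Complex.norm_exp_ofReal_mul_I, Complex.norm_exp_ofReal_mul_I]
      norm_num
  refine (integral_mono_of_nonneg (Eventually.of_forall fun y => norm_nonneg _)
    ((integrable_const _).indicator measurableSet_diagS.compl) (Eventually.of_forall h1)).trans ?_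
  rw [integral_indicator measurableSet_diagS.compl, setIntegral_const, smul_eq_mul,
    probReal_compl_eq_one_sub measurableSet_diagS]
  linarith

theorem unique_all (hβ : 0 ≤ β) (hl : l ≤ 1)
    {π π' : Measure (ℝ × ℝ)} [IsProbabilityMeasure π] [IsProbabilityMeasure π']
    (hm : ∀ᵐ p ∂π, p.2 ∈ Icc (0 : ℝ) 1) (hm' : ∀ᵐ p ∂π', p.2 ∈ Icc (0 : ℝ) 1)
    (hf : PhiL l β D π = π) (hf' : PhiL l β D π' = π') : π = π' := by
  have f1 := isFix_snd hf hm
  have f2 := isFix_snd hf' hm'
  have hpμ : IsProbabilityMeasure (π.map Prod.snd) :=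
    Measure.isProbabilityMeasure_map measurable_snd.aemeasurable
  have hpμ' : IsProbabilityMeasure (π'.map Prod.snd) :=
    Measure.isProbabilityMeasure_map measurable_snd.aemeasurable
  obtain ⟨Γ, hΓ, g1, g2⟩ := exists_coupling (fix_unique hβ f1 f2)
  set g : ℕ → ℝ := fun n => 1 - (Gam l β D Γ n).real diagS with hg
  have hg0 : ∀ n, 0 ≤ g n := fun n => by
    have hp : IsProbabilityMeasure (Gam l β D Γ n) := Gam_prob Γ n
    rw [hg]
    simp only [sub_nonneg]
    exact measureReal_le_one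
  have hstep : ∀ n, g (n + 1) ≤ 1 - Real.exp (-(g n)) := by
    intro n
    have hp : IsProbabilityMeasure (Gam l β D Γ n) := Gam_prob Γ n
    have h := diag_step (l := l) (β := β) (D := D) (Gam l β D Γ n)
    have h2 : Real.exp (-(g n)) ≤ Real.exp (-(l * (1 - (Gam l β D Γ n).real diagS))) := by
      refine Real.exp_le_exp.2 ?_
      have hl' : (l : ℝ) ≤ 1 := by exact_mod_cast hl
      have h0 := hg0 n
      have : (l : ℝ) * (1 - (Gam l β D Γ n).real diagS) ≤ 1 * g n :=
        mul_le_mul_of_nonneg_right hl' h0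
      linarith
    have h3 : g (n + 1) = 1 - ((Gen l ((Gam l β D Γ n).prod (D.prod D))).map (F3 β)).real diagS :=
      rfl
    rw [h3]
    linarith
  have hanti : Antitone g := antitone_nat_of_succ_le fun n => by
    have := Real.add_one_le_exp (-(g n))
    linarith [hstep n]
  have hbdd : BddBelow (Set.range g) := ⟨0, by rintro _ ⟨n, rfl⟩; exact hg0 n⟩
  have hlim := tendsto_atTop_ciInf hanti hbdd
  set gi := ⨅ n, g n with hginf
  have hl0 : 0 ≤ gi := ge_of_tendsto' hlim hg0
  have hl1 : gi ≤ 1 - Real.exp (-gi) :=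
    le_of_tendsto_of_tendsto' ((tendsto_add_atTop_iff_nat 1).2 hlim)
      (tendsto_const_nhds.sub ((Real.continuous_exp.tendsto _).comp hlim.neg)) hstep
  have hzero : gi = 0 := by
    by_contra hne
    have := Real.add_one_lt_exp (x := -gi) (by simpa using hne)
    linarith
  rw [hzero] at hlim
  refine Measure.ext_of_charFunDual (funext fun L => ?_)
  have hle : ∀ n, ‖charFunDual π L - charFunDual π' L‖ ≤ 2 * g n := by
    intro n
    have hp : IsProbabilityMeasure (Gam l β D Γ n) := Gam_prob Γ n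
    have h1 := charFun_close2 (Γ := Gam l β D Γ n) L
    rw [Gam_pr1 hf Γ g1, Gam_pr2 hf' Γ g2] at h1
    exact h1
  have h2 : ‖charFunDual π L - charFunDual π' L‖ ≤ 2 * 0 :=
    ge_of_tendsto' (hlim.const_mul 2) hle
  rw [mul_zero] at h2
  exact sub_eq_zero.1 (norm_le_zero_iff.1 h2)

end Pool.Agent.Q287.JR
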