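import Pool.Agent.Q287.JR.JR1

open MeasureTheory ProbabilityTheory Set Filter
open scoped ENNReal NNReal

namespace Pool.Agent.Q287.JR

section Split

variable {A : Type*} [MeasurableSpace A] (ρ : Measure A) [IsProbabilityMeasure ρ]

/-- root value and subtrees -/
def split (ω : List ℕ → A) : A × (ℕ → List ℕ → A) := (ω [], fun k v => ω (k :: v))

lemma measurable_split : Measurable (split : (List ℕ → A) → A × (ℕ → List ℕ → A)) := by
  unfold split
  fun_prop

lemma measurePreserving_split :
    MeasurePreserving (split : (List ℕ → A) → A × (ℕ → List ℕ → A))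
      (Measure.infinitePi (fun _ : List ℕ => ρ))
      (ρ.prod (Measure.infinitePi (fun _ : ℕ => Measure.infinitePi (fun _ : List ℕ => ρ)))) := by
  have h1 := measurePreserving_splitE ρ eList
  have h2 : MeasurePreserving (MeasurableEquiv.curry ℕ (List ℕ) A)
      (Measure.infinitePi fun _ : ℕ × List ℕ => ρ)
      (Measure.infinitePi (fun _ : ℕ => Measure.infinitePi (fun _ : List ℕ => ρ))) :=
    ⟨by fun_prop, Measure.infinitePi_map_curry (fun (_ : ℕ) (_ : List ℕ) => ρ)⟩
  have h3 := (MeasurePreserving.id ρ).prod h2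
  exact h3.comp h1

end Split

variable {M : Type*} [MeasurableSpace M]

/-- node data: (number of children, edge marks to the parent), extra mark -/
abbrev Node (M : Type*) := (ℕ × (ℝ × ℝ)) × M

/-- marked trees -/
abbrev Tree (M : Type*) := List ℕ → Node M

/-- node law -/
noncomputable def rho (l : ℝ≥0) (D : Measure ℝ) (m : Measure M) : Measure (Node M) :=
  ((poissonMeasure l).prod (D.prod D)).prod m

/-- tree law -/
noncomputable def PT (l : ℝ≥0) (D : Measure ℝ) (m : Measure M) : Measure (Tree M) :=
  Measure.infinitePi (fun _ : List ℕ => rho l D m)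

/-- subtree -/
def sub (ω : Tree M) (k : ℕ) : Tree M := fun v => ω (k :: v)
/-- number of children -/
def nR (ω : Tree M) : ℕ := (ω []).1.1
/-- edge marks -/
def mk (ω : Tree M) : ℝ × ℝ := (ω []).1.2
/-- extra mark -/
def mrk (ω : Tree M) : M := (ω []).2

lemma measurable_sub : Measurable (sub : Tree M → ℕ → Tree M) := by
  unfold sub; fun_prop
lemma measurable_nR : Measurable (nR : Tree M → ℕ) := by unfold nR; fun_prop
lemma measurable_mk : Measurable (mk : Tree M → ℝ × ℝ) := by unfold mk; fun_prop
lemma measurable_mrk : Measurable (mrk : Tree M → M) := by unfold mrk; fun_prop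

variable (l : ℝ≥0) (D : Measure ℝ) [IsProbabilityMeasure D] (m : Measure M)
  [IsProbabilityMeasure m]

instance : IsProbabilityMeasure (rho l D m) := by unfold rho; infer_instance
instance : IsProbabilityMeasure (PT l D m) := by unfold PT; infer_instance

lemma lintegral_tree {G : (ℕ × M) × (ℕ → Tree M) → ℝ≥0∞}
    {H : ℝ × ℝ → ℝ≥0∞} (hG : Measurable G) (hH : Measurable H) :
    ∫⁻ ω, G ((nR ω, mrk ω), sub ω) * H (mk ω) ∂(PT l D m) =
      (∫⁻ p, G p ∂(((poissonMeasure l).prod m).prod
        (Measure.infinitePi (fun _ : ℕ => PT l D m)))) * ∫⁻ e, H e ∂(D.prod D) := by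
  have h := measurePreserving_split (rho l D m)
  have hK : Measurable (fun p : Node M × (ℕ → Tree M) =>
      G ((p.1.1.1, p.1.2), p.2) * H p.1.1.2) := by
    refine (hG.comp ?_).mul (hH.comp (by fun_prop))
    fun_prop
  have h1 : ∫⁻ ω, G ((nR ω, mrk ω), sub ω) * H (mk ω) ∂(PT l D m) =
      ∫⁻ p : Node M × (ℕ → Tree M), G ((p.1.1.1, p.1.2), p.2) * H p.1.1.2
        ∂((rho l D m).prod (Measure.infinitePi (fun _ : ℕ => PT l D m))) := by
    unfold PT
    rw [← h.map_eq, lintegral_map hK h.measurable]
    rfl
  rw [h1, lintegral_prod _ hK.aemeasurable]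
  set Gt : ℕ × M → ℝ≥0∞ := fun a => ∫⁻ f, G (a, f) ∂(Measure.infinitePi (fun _ : ℕ => PT l D m))
    with hGt
  have hGtm : Measurable Gt := hG.lintegral_prod_right'
  have h2 : ∀ a : Node M, ∫⁻ f, G ((a.1.1, a.2), f) * H a.1.2
      ∂(Measure.infinitePi (fun _ : ℕ => PT l D m)) = Gt (a.1.1, a.2) * H a.1.2 := by
    intro a
    have hGa : Measurable (fun f : ℕ → Tree M => G ((a.1.1, a.2), f)) := by
      refine hG.comp (g := G) (f := fun f : ℕ → Tree M => ((a.1.1, a.2), f)) ?_
      fun_prop
    rw [lintegral_mul_const _ hGa]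
  simp only [h2]
  have hK2 : Measurable (fun a : Node M => Gt (a.1.1, a.2) * H a.1.2) :=
    (hGtm.comp (by fun_prop)).mul (hH.comp (by fun_prop))
  unfold rho
  rw [lintegral_prod _ hK2.aemeasurable]
  have h3 : ∀ b : ℕ × (ℝ × ℝ), ∫⁻ y, Gt (b.1, y) * H b.2 ∂m =
      (∫⁻ y, Gt (b.1, y) ∂m) * H b.2 := by
    intro b
    have hGb : Measurable (fun y : M => Gt (b.1, y)) := by
      refine hGtm.comp (g := Gt) (f := fun y : M => (b.1, y)) ?_
      fun_prop
    rw [lintegral_mul_const _ hGb]
  simp only [h3]
  have h4 := lintegral_prod_mul (μ := poissonMeasure l) (ν := D.prod D)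
    (f := fun r => ∫⁻ y, Gt (r, y) ∂m) (g := H) (measurable_of_countable _).aemeasurable
    hH.aemeasurable
  rw [h4]
  congr 1
  rw [lintegral_prod _ hG.aemeasurable, lintegral_prod _ hGtm.aemeasurable]

variable {S' : Type*} [MeasurableSpace S']

lemma tree_law {V' : (ℕ × M) × (ℕ → Tree M) → S'} (hV : Measurable V') :
    (PT l D m).map (fun ω => V' ((nR ω, mrk ω), sub ω)) =
      (((poissonMeasure l).prod m).prod (Measure.infinitePi (fun _ : ℕ => PT l D m))).map V' := by
  have hVm : Measurable (fun ω : Tree M => V' ((nR ω, mrk ω), sub ω)) :=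
    hV.comp ((measurable_nR.prodMk measurable_mrk).prodMk measurable_sub)
  ext s hs
  rw [← lintegral_indicator_one hs, ← lintegral_indicator_one hs,
    lintegral_map (measurable_one.indicator hs) hVm, lintegral_map (measurable_one.indicator hs) hV]
  have := lintegral_tree l D m (G := fun p => s.indicator 1 (V' p)) (H := fun _ => 1)
    ((measurable_one.indicator hs).comp hV) measurable_const
  simpa using this

lemma tree_indep {V' : (ℕ × M) × (ℕ → Tree M) → S'} (hV : Measurable V') :
    (PT l D m).map (fun ω => (V' ((nR ω, mrk ω), sub ω), mk ω)) =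
      ((PT l D m).map (fun ω => V' ((nR ω, mrk ω), sub ω))).prod (D.prod D) := by
  have hVm : Measurable (fun ω : Tree M => V' ((nR ω, mrk ω), sub ω)) :=
    hV.comp ((measurable_nR.prodMk measurable_mrk).prodMk measurable_sub)
  have : IsProbabilityMeasure ((PT l D m).map (fun ω => V' ((nR ω, mrk ω), sub ω))) :=
    Measure.isProbabilityMeasure_map hVm.aemeasurable
  symm
  refine Measure.prod_eq fun s t hs ht => ?_
  rw [Measure.map_apply (hVm.prodMk measurable_mk) (hs.prod ht), tree_law l D m hV,
    Measure.map_apply hV hs, ← lintegral_indicator_one (hV hs), ← lintegral_indicator_one ht]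
  rw [← lintegral_tree l D m (measurable_one.indicator (hV hs))
    (measurable_one.indicator ht)]
  rw [← lintegral_indicator_one ((hVm.prodMk measurable_mk) (hs.prod ht))]
  refine lintegral_congr fun ω => ?_
  by_cases h1 : V' ((nR ω, mrk ω), sub ω) ∈ s <;> by_cases h2 : mk ω ∈ t <;>
    simp [Set.indicator, h1, h2]

lemma tree_gen : (PT l D m).map (fun ω => (nR ω, sub ω)) = Gen l (PT l D m) := by
  have h := tree_law l D m (S' := ℕ × (ℕ → Tree M))
    (V' := fun p => (p.1.1, p.2)) (by fun_prop)
  rw [h]
  unfold Gen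
  have hfst : ((poissonMeasure l).prod m).map Prod.fst = poissonMeasure l := by
    rw [Measure.map_fst_prod, measure_univ, one_smul]
  conv_rhs => rw [← hfst]
  have h2 : (((poissonMeasure l).prod m).map Prod.fst).prod
      (Measure.infinitePi (fun _ : ℕ => PT l D m)) =
      (((poissonMeasure l).prod m).map Prod.fst).prod
      ((Measure.infinitePi (fun _ : ℕ => PT l D m)).map id) := by rw [Measure.map_id]
  rw [h2, Measure.map_prod_map _ _ measurable_fst measurable_id]
  rfl

lemma tree_sub (k : ℕ) : MeasurePreserving (fun ω : Tree M => sub ω k) (PT l D m) (PT l D m) := by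
  refine ⟨(measurable_pi_apply k).comp measurable_sub, ?_⟩
  have h := tree_gen l D m
  have h1 : (PT l D m).map (fun ω : Tree M => sub ω k) =
      ((PT l D m).map (fun ω => (nR ω, sub ω))).map (fun q => q.2 k) := by
    rw [Measure.map_map (by fun_prop) (measurable_nR.prodMk measurable_sub)]
    rfl
  rw [h1, h]
  unfold Gen
  have h2 : ((poissonMeasure l).prod (Measure.infinitePi (fun _ : ℕ => PT l D m))).map
      (fun q => q.2 k) = (((poissonMeasure l).prod (Measure.infinitePi
        (fun _ : ℕ => PT l D m))).map Prod.snd).map (fun f => f k) := by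
    rw [Measure.map_map (by fun_prop) (by fun_prop)]
    rfl
  rw [h2, Measure.map_snd_prod, measure_univ, one_smul]
  exact Measure.infinitePi_map_eval (fun _ : ℕ => PT l D m) k

end Pool.Agent.Q287.JR
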