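import Pool.Agent.Q287.JR.JR2

open MeasureTheory ProbabilityTheory Set Filter
open scoped ENNReal NNReal

namespace Pool.Agent.Q287.JR

/-- the summand `2βζ²/(1+2βξ²x)`, with `e = (ξ, ζ)` -/
noncomputable def sfun (β x : ℝ) (e : ℝ × ℝ) : ℝ := 2 * β * e.2 ^ 2 / (1 + 2 * β * e.1 ^ 2 * x)

lemma measurable_sfun (β : ℝ) : Measurable (fun z : ℝ × (ℝ × ℝ) => sfun β z.1 z.2) := by
  unfold sfun; fun_prop

lemma sfun_nonneg {β x : ℝ} (hβ : 0 ≤ β) (hx : 0 ≤ x) (e : ℝ × ℝ) : 0 ≤ sfun β x e := by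
  unfold sfun; positivity

section GenAE

variable {S : Type*} [MeasurableSpace S] (l : ℝ≥0) (Q : Measure S) [IsProbabilityMeasure Q]

lemma Gen_map_eval (k : ℕ) : (Gen l Q).map (fun q => q.2 k) = Q := by
  unfold Gen
  have h2 : ((poissonMeasure l).prod (Measure.infinitePi (fun _ : ℕ => Q))).map
      (fun q => q.2 k) = (((poissonMeasure l).prod (Measure.infinitePi
        (fun _ : ℕ => Q))).map Prod.snd).map (fun f => f k) := by
    rw [Measure.map_map (by fun_prop) (by fun_prop)]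
    rfl
  rw [h2, Measure.map_snd_prod, measure_univ, one_smul]
  exact Measure.infinitePi_map_eval (fun _ : ℕ => Q) k

lemma ae_Gen {p : S → Prop} (hp : ∀ᵐ x ∂Q, p x) : ∀ᵐ q ∂(Gen l Q), ∀ k, p (q.2 k) := by
  rw [ae_all_iff]
  intro k
  have h : ∀ᵐ x ∂((Gen l Q).map (fun q => q.2 k)), p x := by rwa [Gen_map_eval]
  exact ae_of_ae_map (by fun_prop) h

end GenAE

/-- the map on laws of the second coordinate -/
noncomputable def TX (l : ℝ≥0) (β : ℝ) (D μ : Measure ℝ) : Measure ℝ :=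
  (Gen l (μ.prod (D.prod D))).map (fun q => 1 / (1 + rs (fun z => sfun β z.1 z.2) q))

/-- fixed points for the second coordinate -/
structure IsFix (l : ℝ≥0) (β : ℝ) (D μ : Measure ℝ) : Prop where
  fix : TX l β D μ = μ
  mem : ∀ᵐ x ∂μ, x ∈ Icc (0 : ℝ) 1

variable {l : ℝ≥0} {β : ℝ} {D : Measure ℝ} [IsProbabilityMeasure D]

lemma rs_nonneg {S : Type*} [MeasurableSpace S] {s : S → ℝ} {q : ℕ × (ℕ → S)}
    (h : ∀ k, 0 ≤ s (q.2 k)) : 0 ≤ rs s q :=
  Finset.sum_nonneg fun k _ => h k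

lemma measurable_TXfun (β : ℝ) : Measurable (fun q : ℕ × (ℕ → ℝ × (ℝ × ℝ)) =>
    1 / (1 + rs (fun z => sfun β z.1 z.2) q)) := by
  have := measurable_rs (measurable_sfun β)
  exact (measurable_const.div (measurable_const.add this))

lemma ae_fst_prod {α' β' : Type*} [MeasurableSpace α'] [MeasurableSpace β'] {μ : Measure α'}
    {ν : Measure β'} [IsProbabilityMeasure ν] [SFinite μ] {p : α' → Prop} (hp : ∀ᵐ x ∂μ, p x) :
    ∀ᵐ z ∂(μ.prod ν), p z.1 := by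
  have h : ∀ᵐ x ∂((μ.prod ν).map Prod.fst), p x := by
    rw [Measure.map_fst_prod, measure_univ, one_smul]; exact hp
  exact ae_of_ae_map (by fun_prop) h

lemma IsFix.lintegral {μ : Measure ℝ} [IsProbabilityMeasure μ] (hμ : IsFix l β D μ)
    {F : ℝ → ℝ≥0∞} (hF : Measurable F) :
    ∫⁻ x, F x ∂μ = ∫⁻ q, F (1 / (1 + rs (fun z => sfun β z.1 z.2) q))
      ∂(Gen l (μ.prod (D.prod D))) := by
  conv_lhs => rw [← hμ.fix]
  unfold TX
  rw [lintegral_map hF (measurable_TXfun β)]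

lemma IsFix.pos {μ : Measure ℝ} [IsProbabilityMeasure μ] (hβ : 0 ≤ β) (hμ : IsFix l β D μ) :
    ∀ᵐ x ∂μ, 0 < x := by
  rw [← hμ.fix]
  unfold TX
  rw [ae_map_iff (measurable_TXfun β).aemeasurable measurableSet_Ioi]
  have h1 : ∀ᵐ z ∂(μ.prod (D.prod D)), z.1 ∈ Icc (0 : ℝ) 1 := ae_fst_prod hμ.mem
  filter_upwards [ae_Gen l (μ.prod (D.prod D)) h1] with q hq
  have h0 : 0 ≤ rs (fun z : ℝ × (ℝ × ℝ) => sfun β z.1 z.2) q :=
    rs_nonneg fun k => sfun_nonneg hβ (hq k).1 _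
  positivity

/-- the dual operator with weight `c` -/
noncomputable def Kop (l : ℝ≥0) (β : ℝ) (D μ : Measure ℝ) (c : ℝ → ℝ × ℝ → ℝ≥0∞)
    (w : ℝ → ℝ≥0∞) (x : ℝ) : ℝ≥0∞ :=
  l * ∫⁻ e, c x e * ∫⁻ x', w (x' / (1 + x' * sfun β x e)) ∂μ ∂(D.prod D)

lemma measurable_inner {μ : Measure ℝ} [IsProbabilityMeasure μ] {w : ℝ → ℝ≥0∞}
    (hw : Measurable w) :
    Measurable (fun z : ℝ × (ℝ × ℝ) => ∫⁻ x', w (x' / (1 + x' * sfun β z.1 z.2)) ∂μ) := by
  refine Measurable.lintegral_prod_right' (f := fun p : (ℝ × (ℝ × ℝ)) × ℝ =>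
    w (p.2 / (1 + p.2 * sfun β p.1.1 p.1.2))) ?_
  refine hw.comp ?_
  exact measurable_snd.div (measurable_const.add (measurable_snd.mul
    ((measurable_sfun β).comp measurable_fst)))

lemma measurable_inner2 {μ : Measure ℝ} [IsProbabilityMeasure μ] {w : ℝ → ℝ≥0∞}
    (hw : Measurable w) {α' : Type*} [MeasurableSpace α'] {g1 : α' → ℝ} {g2 : α' → ℝ × ℝ}
    (h1 : Measurable g1) (h2 : Measurable g2) :
    Measurable (fun z : α' => ∫⁻ x', w (x' / (1 + x' * sfun β (g1 z) (g2 z))) ∂μ) := by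
  refine Measurable.lintegral_prod_right' (f := fun p : α' × ℝ =>
    w (p.2 / (1 + p.2 * sfun β (g1 p.1) (g2 p.1)))) ?_
  refine hw.comp ?_
  have h3 : Measurable (fun p : α' × ℝ => sfun β (g1 p.1) (g2 p.1)) :=
    (measurable_sfun β).comp ((h1.comp measurable_fst).prodMk (h2.comp measurable_fst))
  exact measurable_snd.div (measurable_const.add (measurable_snd.mul h3))

lemma measurable_Kop {μ : Measure ℝ} [IsProbabilityMeasure μ] {c : ℝ → ℝ × ℝ → ℝ≥0∞}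
    (hc : Measurable (fun z : ℝ × (ℝ × ℝ) => c z.1 z.2)) {w : ℝ → ℝ≥0∞} (hw : Measurable w) :
    Measurable (Kop l β D μ c w) := by
  unfold Kop
  refine Measurable.const_mul ?_ _
  exact Measurable.lintegral_prod_right' (f := fun p : ℝ × (ℝ × ℝ) =>
    c p.1 p.2 * ∫⁻ x', w (x' / (1 + x' * sfun β p.1 p.2)) ∂μ) (hc.mul (measurable_inner hw))

section OS

variable {μ : Measure ℝ} [IsProbabilityMeasure μ] {S : Type*} [MeasurableSpace S]
  {γ : Measure S} [IsProbabilityMeasure γ] {X : S → ℝ}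

omit [IsProbabilityMeasure μ] in
lemma map_X_prod (hX : Measurable X) (hXμ : γ.map X = μ) :
    (γ.prod (D.prod D)).map (fun z : S × (ℝ × ℝ) => (X z.1, z.2)) = μ.prod (D.prod D) := by
  have : (fun z : S × (ℝ × ℝ) => (X z.1, z.2)) = Prod.map X id := rfl
  rw [this, ← Measure.map_prod_map _ _ hX measurable_id, Measure.map_id, hXμ]

lemma law_step (hμ : IsFix l β D μ) (hX : Measurable X) (hXμ : γ.map X = μ)
    {F : ℝ → ℝ≥0∞} (hF : Measurable F) :
    ∫⁻ q, F (1 / (1 + rs (fun z : S × (ℝ × ℝ) => sfun β (X z.1) z.2) q))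
      ∂(Gen l (γ.prod (D.prod D))) = ∫⁻ x', F x' ∂μ := by
  have hXz : Measurable (fun z : S × (ℝ × ℝ) => (X z.1, z.2)) := by fun_prop
  have hmm : Measurable (fun q : ℕ × (ℕ → S × (ℝ × ℝ)) =>
      ((q.1, fun n => (X (q.2 n).1, (q.2 n).2)) : ℕ × (ℕ → ℝ × (ℝ × ℝ)))) := by
    refine Measurable.prodMk measurable_fst ?_
    refine measurable_pi_lambda _ fun n => ?_
    exact hXz.comp ((measurable_pi_apply n).comp measurable_snd)
  have hFm : Measurable (fun q : ℕ × (ℕ → ℝ × (ℝ × ℝ)) =>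
      F (1 / (1 + rs (fun z => sfun β z.1 z.2) q))) := hF.comp (measurable_TXfun β)
  rw [hμ.lintegral hF, ← map_X_prod (D := D) hX hXμ, ← Gen_map l _ hXz, lintegral_map hFm hmm]
  rfl

lemma ae_X_mem (hμ : IsFix l β D μ) (hX : Measurable X) (hXμ : γ.map X = μ) :
    ∀ᵐ y ∂γ, X y ∈ Icc (0 : ℝ) 1 := by
  have := hμ.mem
  rw [← hXμ] at this
  exact ae_of_ae_map hX.aemeasurable this

lemma inner_step (hβ : 0 ≤ β) (hμ : IsFix l β D μ) (hX : Measurable X) (hXμ : γ.map X = μ)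
    {w : ℝ → ℝ≥0∞} (hw : Measurable w) (z : S × (ℝ × ℝ)) (hz : 0 ≤ X z.1) :
    ∫⁻ q, w (1 / (1 + (sfun β (X z.1) z.2 + rs (fun z : S × (ℝ × ℝ) => sfun β (X z.1) z.2) q)))
        ∂(Gen l (γ.prod (D.prod D))) =
      ∫⁻ x', w (x' / (1 + x' * sfun β (X z.1) z.2)) ∂μ := by
  have hFm : Measurable (fun x' : ℝ => w (x' / (1 + x' * sfun β (X z.1) z.2))) :=
    hw.comp (by fun_prop)
  rw [← law_step hμ hX hXμ hFm]
  have h1 : ∀ᵐ z ∂(γ.prod (D.prod D)), X z.1 ∈ Icc (0 : ℝ) 1 :=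
    ae_fst_prod (p := fun y => X y ∈ Icc (0 : ℝ) 1) (ae_X_mem hμ hX hXμ)
  refine lintegral_congr_ae ?_
  filter_upwards [ae_Gen l (γ.prod (D.prod D)) h1] with q hq
  have ht0 : 0 ≤ rs (fun z : S × (ℝ × ℝ) => sfun β (X z.1) z.2) q :=
    rs_nonneg fun k => sfun_nonneg hβ (hq k).1 _
  have hs0 : 0 ≤ sfun β (X z.1) z.2 := sfun_nonneg hβ hz _
  generalize rs (fun z : S × (ℝ × ℝ) => sfun β (X z.1) z.2) q = t at ht0
  generalize sfun β (X z.1) z.2 = s at hs0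
  congr 1
  have h1t : (1 + t) ≠ 0 := by positivity
  have h2 : 1 + (s + t) ≠ 0 := by positivity
  have h3 : 1 + 1 / (1 + t) * s ≠ 0 := by positivity
  field_simp
  ring

theorem oneStep (hβ : 0 ≤ β) (hμ : IsFix l β D μ)
    (hX : Measurable X) (hXμ : γ.map X = μ) {c : ℝ → ℝ × ℝ → ℝ≥0∞}
    (hc : Measurable (fun z : ℝ × (ℝ × ℝ) => c z.1 z.2)) {d : S → ℝ≥0∞} (hd : Measurable d)
    {w : ℝ → ℝ≥0∞} (hw : Measurable w) :
    ∫⁻ q, w (1 / (1 + rs (fun z : S × (ℝ × ℝ) => sfun β (X z.1) z.2) q)) *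
        rse (fun z : S × (ℝ × ℝ) => c (X z.1) z.2 * d z.1) q ∂(Gen l (γ.prod (D.prod D))) =
      ∫⁻ y, d y * Kop l β D μ c w (X y) ∂γ := by
  have hXz : Measurable (fun z : S × (ℝ × ℝ) => (X z.1, z.2)) := by fun_prop
  have hs : Measurable (fun z : S × (ℝ × ℝ) => sfun β (X z.1) z.2) :=
    (measurable_sfun β).comp hXz
  have hcd : Measurable (fun z : S × (ℝ × ℝ) => c (X z.1) z.2 * d z.1) :=
    (hc.comp hXz).mul (hd.comp measurable_fst)
  have hw1 : Measurable (fun t : ℝ => w (1 / (1 + t))) := hw.comp (by fun_prop)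
  have hm := mecke l (γ.prod (D.prod D)) (h := fun t => w (1 / (1 + t))) hs hcd hw1
  rw [hm]
  have h1 : ∀ᵐ z ∂(γ.prod (D.prod D)), X z.1 ∈ Icc (0 : ℝ) 1 :=
    ae_fst_prod (p := fun y => X y ∈ Icc (0 : ℝ) 1) (ae_X_mem hμ hX hXμ)
  have hin : Measurable (fun z : S × (ℝ × ℝ) =>
      ∫⁻ x', w (x' / (1 + x' * sfun β (X z.1) z.2)) ∂μ) :=
    measurable_inner2 hw (hX.comp measurable_fst) measurable_snd
  have h2 : ∫⁻ z, c (X z.1) z.2 * d z.1 *
      ∫⁻ q, w (1 / (1 + (sfun β (X z.1) z.2 + rs (fun z : S × (ℝ × ℝ) => sfun β (X z.1) z.2) q)))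
        ∂(Gen l (γ.prod (D.prod D))) ∂(γ.prod (D.prod D)) =
      ∫⁻ z, c (X z.1) z.2 * d z.1 *
        ∫⁻ x', w (x' / (1 + x' * sfun β (X z.1) z.2)) ∂μ ∂(γ.prod (D.prod D)) := by
    refine lintegral_congr_ae ?_
    filter_upwards [h1] with z hz
    rw [inner_step hβ hμ hX hXμ hw z hz.1]
  have hall : Measurable (fun z : S × (ℝ × ℝ) => c (X z.1) z.2 * d z.1 *
        ∫⁻ x', w (x' / (1 + x' * sfun β (X z.1) z.2)) ∂μ) := hcd.mul hin
  rw [h2, lintegral_prod _ hall.aemeasurable, ← lintegral_const_mul]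
  · refine lintegral_congr fun y => ?_
    have hce : Measurable (fun e : ℝ × ℝ => c (X y) e) :=
      hc.comp (f := fun e : ℝ × ℝ => (X y, e)) (measurable_const.prodMk measurable_id)
    have hie : Measurable (fun e : ℝ × ℝ => ∫⁻ x', w (x' / (1 + x' * sfun β (X y) e)) ∂μ) :=
      measurable_inner2 hw measurable_const measurable_id
    unfold Kop
    have hcie : Measurable (fun e : ℝ × ℝ => c (X y) e *
        ∫⁻ x', w (x' / (1 + x' * sfun β (X y) e)) ∂μ) := hce.mul hie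
    rw [← mul_assoc, mul_comm (d y), mul_assoc, ← lintegral_const_mul _ hcie]
    congr 1
    refine lintegral_congr fun e => ?_
    rw [← mul_assoc, mul_comm (d y)]
  · exact hall.lintegral_prod_right'

end OS

end Pool.Agent.Q287.JR
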