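import Pool.Agent.Q287.JR.JR3

open MeasureTheory ProbabilityTheory Set Filter
open scoped ENNReal NNReal Topology

namespace Pool.Agent.Q287.JR

variable {l : ℝ≥0} {β : ℝ} {D : Measure ℝ} [IsProbabilityMeasure D]

/-! ### Consequences of the fixed point property of the second marginal -/

section Law

variable {μ : Measure ℝ} [IsProbabilityMeasure μ]

lemma rse_ofReal {S : Type*} [MeasurableSpace S] {s : S → ℝ} {q : ℕ × (ℕ → S)}
    (h : ∀ k, 0 ≤ s (q.2 k)) : rse (fun z => ENNReal.ofReal (s z)) q = ENNReal.ofReal (rs s q) := by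
  unfold rse rs
  rw [ENNReal.ofReal_sum_of_nonneg fun k _ => h k]

lemma measurable_csfun (β : ℝ) :
    Measurable (fun z : ℝ × (ℝ × ℝ) => ENNReal.ofReal (sfun β z.1 z.2)) :=
  (measurable_sfun β).ennreal_ofReal

/-- the key size-bias identity for a fixed point -/
lemma fix_M1 (hβ : 0 ≤ β) (hμ : IsFix l β D μ) {g : ℝ → ℝ≥0∞} (hg : Measurable g) :
    ∫⁻ x, g x * ENNReal.ofReal (1 / x - 1) ∂μ =
      ∫⁻ x, Kop l β D μ (fun x e => ENNReal.ofReal (sfun β x e)) g x ∂μ := by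
  have h := oneStep (μ := μ) (γ := μ) (X := id) hβ hμ measurable_id Measure.map_id
    (c := fun x e => ENNReal.ofReal (sfun β x e)) (measurable_csfun β)
    (d := fun _ => 1) measurable_const hg
  simp only [id, mul_one, one_mul] at h
  rw [← h]
  have hF : Measurable (fun x : ℝ => g x * ENNReal.ofReal (1 / x - 1)) :=
    hg.mul (by fun_prop)
  rw [hμ.lintegral hF]
  have h1 : ∀ᵐ z ∂(μ.prod (D.prod D)), z.1 ∈ Icc (0 : ℝ) 1 := ae_fst_prod hμ.mem
  refine lintegral_congr_ae ?_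
  filter_upwards [ae_Gen l (μ.prod (D.prod D)) h1] with q hq
  have hs : ∀ k, 0 ≤ sfun β (q.2 k).1 (q.2 k).2 := fun k => sfun_nonneg hβ (hq k).1 _
  rw [rse_ofReal hs]
  congr 2
  have := rs_nonneg (s := fun z : ℝ × (ℝ × ℝ) => sfun β z.1 z.2) (q := q) hs
  have h2 : 1 + rs (fun z : ℝ × (ℝ × ℝ) => sfun β z.1 z.2) q ≠ 0 := by positivity
  field_simp
  ring

/-- `b/(1+a+b)` with `a = 2βξ²x`, `b = 2βζ²x'`; `e = (ξ,ζ)` -/
noncomputable def fab (β : ℝ) (p : (ℝ × ℝ) × (ℝ × ℝ)) : ℝ :=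
  2 * β * p.1.2 ^ 2 * p.2.2 / (1 + 2 * β * p.1.1 ^ 2 * p.2.1 + 2 * β * p.1.2 ^ 2 * p.2.2)

/-- `(a+b)/(1+a+b)` -/
noncomputable def fsym (β : ℝ) (p : (ℝ × ℝ) × (ℝ × ℝ)) : ℝ :=
  (2 * β * p.1.1 ^ 2 * p.2.1 + 2 * β * p.1.2 ^ 2 * p.2.2) /
    (1 + 2 * β * p.1.1 ^ 2 * p.2.1 + 2 * β * p.1.2 ^ 2 * p.2.2)

lemma measurable_fab (β : ℝ) : Measurable (fab β) := by unfold fab; fun_prop
lemma measurable_fsym (β : ℝ) : Measurable (fsym β) := by unfold fsym; fun_prop

lemma ae_snd_prod {α' β' : Type*} [MeasurableSpace α'] [MeasurableSpace β'] {μ : Measure α'}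
    {ν : Measure β'} [IsProbabilityMeasure μ] [SFinite ν] {p : β' → Prop} (hp : ∀ᵐ x ∂ν, p x) :
    ∀ᵐ z ∂(μ.prod ν), p z.2 := by
  have h : ∀ᵐ x ∂((μ.prod ν).map Prod.snd), p x := by
    rw [Measure.map_snd_prod, measure_univ, one_smul]; exact hp
  exact ae_of_ae_map (by fun_prop) h

lemma ae_four (hμ0 : ∀ᵐ x ∂μ, 0 ≤ x) :
    ∀ᵐ p ∂((D.prod D).prod (μ.prod μ)), 0 ≤ p.2.1 ∧ 0 ≤ p.2.2 := by
  refine ae_snd_prod (p := fun q : ℝ × ℝ => 0 ≤ q.1 ∧ 0 ≤ q.2) ?_
  have h1 : ∀ᵐ q ∂(μ.prod μ), 0 ≤ q.1 := ae_fst_prod hμ0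
  have h2 : ∀ᵐ q ∂(μ.prod μ), 0 ≤ q.2 := ae_snd_prod (p := fun x : ℝ => 0 ≤ x) hμ0
  filter_upwards [h1, h2] with q a b using ⟨a, b⟩

lemma lintegral_fab_sym (hβ : 0 ≤ β) (hμ0 : ∀ᵐ x ∂μ, 0 ≤ x) :
    ∫⁻ p, ENNReal.ofReal (fsym β p) ∂((D.prod D).prod (μ.prod μ)) =
      2 * ∫⁻ p, ENNReal.ofReal (fab β p) ∂((D.prod D).prod (μ.prod μ)) := by
  have hswD : MeasurePreserving Prod.swap (D.prod D) (D.prod D) := Measure.measurePreserving_swap
  have hswμ : MeasurePreserving Prod.swap (μ.prod μ) (μ.prod μ) := Measure.measurePreserving_swap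
  have hsw := hswD.prod hswμ
  have h1 : ∫⁻ p, ENNReal.ofReal (fab β (Prod.map Prod.swap Prod.swap p))
      ∂((D.prod D).prod (μ.prod μ)) =
      ∫⁻ p, ENNReal.ofReal (fab β p) ∂((D.prod D).prod (μ.prod μ)) :=
    hsw.lintegral_comp (measurable_fab β).ennreal_ofReal
  have hm : Measurable (fun p => ENNReal.ofReal (fab β (Prod.map Prod.swap Prod.swap p))) :=
    ((measurable_fab β).comp hsw.measurable).ennreal_ofReal
  calc ∫⁻ p, ENNReal.ofReal (fsym β p) ∂((D.prod D).prod (μ.prod μ))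
      = ∫⁻ p, (ENNReal.ofReal (fab β (Prod.map Prod.swap Prod.swap p)) +
          ENNReal.ofReal (fab β p)) ∂((D.prod D).prod (μ.prod μ)) := by
        refine lintegral_congr_ae ?_
        filter_upwards [ae_four (D := D) hμ0] with p hp
        rcases p with ⟨⟨ξ, ζ⟩, ⟨x, y⟩⟩
        simp only at hp
        obtain ⟨hx, hy⟩ := hp
        rw [← ENNReal.ofReal_add]
        · congr 1
          simp only [fsym, fab, Prod.map_apply, Prod.swap_prod_mk]
          have h2 : 0 < 1 + 2 * β * ξ ^ 2 * x + 2 * β * ζ ^ 2 * y := by positivity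
          have h3 : 1 + 2 * β * ζ ^ 2 * y + 2 * β * ξ ^ 2 * x =
            1 + 2 * β * ξ ^ 2 * x + 2 * β * ζ ^ 2 * y := by ring
          rw [h3, ← add_div]
        · simp only [fab, Prod.map_apply, Prod.swap_prod_mk]
          positivity
        · simp only [fab]
          positivity
    _ = ∫⁻ p, ENNReal.ofReal (fab β (Prod.map Prod.swap Prod.swap p))
          ∂((D.prod D).prod (μ.prod μ)) +
        ∫⁻ p, ENNReal.ofReal (fab β p) ∂((D.prod D).prod (μ.prod μ)) := lintegral_add_left hm _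
    _ = 2 * ∫⁻ p, ENNReal.ofReal (fab β p) ∂((D.prod D).prod (μ.prod μ)) := by
        rw [h1, two_mul]

/-- the mass-transport identity -/
lemma fix_identity (hβ : 0 ≤ β) (hμ : IsFix l β D μ) :
    2 * ∫⁻ x, ENNReal.ofReal (1 - x) ∂μ =
      l * ∫⁻ p, ENNReal.ofReal (fsym β p) ∂((D.prod D).prod (μ.prod μ)) := by
  have hpos := hμ.pos hβ
  have h0 : ∀ᵐ x ∂μ, 0 ≤ x := hpos.mono fun x hx => hx.le
  rw [lintegral_fab_sym hβ h0]
  have h1 := fix_M1 hβ hμ (g := ENNReal.ofReal) ENNReal.measurable_ofReal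
  have h2 : ∫⁻ x, ENNReal.ofReal x * ENNReal.ofReal (1 / x - 1) ∂μ =
      ∫⁻ x, ENNReal.ofReal (1 - x) ∂μ := by
    refine lintegral_congr_ae ?_
    filter_upwards [hpos] with x hx
    rw [← ENNReal.ofReal_mul hx.le]
    congr 1
    field_simp
  rw [← h2, h1]
  unfold Kop
  have h3 : ∫⁻ x, (l : ℝ≥0∞) * ∫⁻ e, ENNReal.ofReal (sfun β x e) *
      ∫⁻ x', ENNReal.ofReal (x' / (1 + x' * sfun β x e)) ∂μ ∂(D.prod D) ∂μ =
      ∫⁻ x, (l : ℝ≥0∞) * ∫⁻ e, ∫⁻ x', ENNReal.ofReal (fab β (e, (x, x'))) ∂μ ∂(D.prod D) ∂μ := by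
    refine lintegral_congr_ae ?_
    filter_upwards [h0] with x hx
    congr 1
    refine lintegral_congr fun e => ?_
    rw [← lintegral_const_mul _ (by fun_prop)]
    refine lintegral_congr_ae ?_
    filter_upwards [h0] with x' hx'
    rw [← ENNReal.ofReal_mul (sfun_nonneg hβ hx e)]
    congr 1
    unfold sfun fab
    have h4 : 0 < 1 + 2 * β * e.1 ^ 2 * x := by positivity
    have h5 : 0 < 1 + 2 * β * e.1 ^ 2 * x + 2 * β * e.2 ^ 2 * x' := by positivity
    have h6 : 0 < 1 + x' * (2 * β * e.2 ^ 2 / (1 + 2 * β * e.1 ^ 2 * x)) := by positivity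
    simp only
    field_simp
  rw [h3]
  have hm1 : Measurable (fun q : (ℝ × (ℝ × ℝ)) × ℝ =>
      ENNReal.ofReal (fab β (q.1.2, (q.1.1, q.2)))) :=
    ((measurable_fab β).comp (by fun_prop)).ennreal_ofReal
  have hm2 : Measurable (fun q : ℝ × (ℝ × ℝ) =>
      ∫⁻ x', ENNReal.ofReal (fab β (q.2, (q.1, x'))) ∂μ) := hm1.lintegral_prod_right'
  rw [lintegral_const_mul _ hm2.lintegral_prod_right', ← mul_assoc, ← mul_assoc,
    mul_comm (2 : ℝ≥0∞)]
  congr 1
  rw [lintegral_prod _ (measurable_fab β).ennreal_ofReal.aemeasurable]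
  rw [lintegral_lintegral_swap (f := fun x e => ∫⁻ x', ENNReal.ofReal (fab β (e, (x, x'))) ∂μ)
    hm2.aemeasurable]
  refine lintegral_congr fun e => ?_
  have hm3 : Measurable (fun q : ℝ × ℝ => ENNReal.ofReal (fab β (e, q))) :=
    ((measurable_fab β).comp (by fun_prop)).ennreal_ofReal
  rw [lintegral_prod _ hm3.aemeasurable]

end Law

/-! ### The tree recursion for the second coordinate -/

section TreeX

variable {M : Type*} [MeasurableSpace M] (m : Measure M) [IsProbabilityMeasure m]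

/-- one step of the recursion on trees -/
noncomputable def stepX (β : ℝ) (V : Tree M → ℝ) (ω : Tree M) : ℝ :=
  1 / (1 + rs (fun ω' => sfun β (V ω') (mk ω')) (nR ω, sub ω))

lemma measurable_sV {V : Tree M → ℝ} (hV : Measurable V) :
    Measurable (fun ω' => sfun β (V ω') (mk ω')) :=
  (measurable_sfun β).comp (hV.prodMk measurable_mk)

lemma measurable_stepX {V : Tree M → ℝ} (hV : Measurable V) : Measurable (stepX β V) := by
  unfold stepX
  exact measurable_const.div (measurable_const.add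
    ((measurable_rs (measurable_sV hV)).comp (measurable_nR.prodMk measurable_sub)))

lemma stepX_mem (hβ : 0 ≤ β) {V : Tree M → ℝ} (hV : ∀ ω, 0 ≤ V ω) (ω : Tree M) :
    0 < stepX β V ω ∧ stepX β V ω ≤ 1 := by
  unfold stepX
  have h : 0 ≤ rs (fun ω' => sfun β (V ω') (mk ω')) (nR ω, sub ω) :=
    rs_nonneg fun k => sfun_nonneg hβ (hV _) _
  refine ⟨by positivity, ?_⟩
  rw [div_le_one (by positivity)]
  linarith

lemma sfun_anti (hβ : 0 ≤ β) {x y : ℝ} (hx : 0 ≤ x) (hxy : x ≤ y) (e : ℝ × ℝ) :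
    sfun β y e ≤ sfun β x e := by
  unfold sfun
  have h : 2 * β * e.1 ^ 2 * x ≤ 2 * β * e.1 ^ 2 * y := by gcongr
  have h0 : 0 < 1 + 2 * β * e.1 ^ 2 * x := by positivity
  gcongr

lemma stepX_mono (hβ : 0 ≤ β) {V V' : Tree M → ℝ} (hV : ∀ ω, 0 ≤ V ω) (hVV : ∀ ω, V ω ≤ V' ω)
    (ω : Tree M) : stepX β V ω ≤ stepX β V' ω := by
  unfold stepX
  have h1 : rs (fun ω' => sfun β (V' ω') (mk ω')) (nR ω, sub ω) ≤
      rs (fun ω' => sfun β (V ω') (mk ω')) (nR ω, sub ω) := by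
    unfold rs
    exact Finset.sum_le_sum fun k _ => sfun_anti hβ (hV _) (hVV _) _
  have h : 0 ≤ rs (fun ω' => sfun β (V' ω') (mk ω')) (nR ω, sub ω) :=
    rs_nonneg fun k => sfun_nonneg hβ ((hV _).trans (hVV _)) _
  gcongr

/-- independence of own edge marks -/
def Ind (l : ℝ≥0) (D : Measure ℝ) (m : Measure M) {S' : Type*} [MeasurableSpace S']
    (V : Tree M → S') : Prop :=
  (PT l D m).map (fun ω => (V ω, mk ω)) = ((PT l D m).map V).prod (D.prod D)

lemma ind_of_rep {S' : Type*} [MeasurableSpace S'] {V : Tree M → S'}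
    {V' : (ℕ × M) × (ℕ → Tree M) → S'} (hV' : Measurable V')
    (h : ∀ ω, V ω = V' ((nR ω, mrk ω), sub ω)) : Ind l D m V := by
  have : V = fun ω => V' ((nR ω, mrk ω), sub ω) := funext h
  unfold Ind
  rw [this]
  exact tree_indep l D m hV'

lemma ind_stepX {V : Tree M → ℝ} (hV : Measurable V) : Ind l D m (stepX β V) := by
  refine ind_of_rep m (V' := fun p => 1 / (1 + rs (fun ω' => sfun β (V ω') (mk ω'))
    (p.1.1, p.2))) ?_ (fun ω => rfl)
  exact measurable_const.div (measurable_const.add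
    ((measurable_rs (measurable_sV hV)).comp (by fun_prop)))

lemma law_stepX {V : Tree M → ℝ} (hV : Measurable V) (hI : Ind l D m V) :
    (PT l D m).map (stepX β V) = TX l β D ((PT l D m).map V) := by
  have hh : Measurable (fun ω : Tree M => (V ω, mk ω)) := hV.prodMk measurable_mk
  have hg : Measurable (fun q : ℕ × (ℕ → Tree M) =>
      1 / (1 + rs (fun ω' => sfun β (V ω') (mk ω')) q)) :=
    measurable_const.div (measurable_const.add (measurable_rs (measurable_sV hV)))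
  have h1 : (PT l D m).map (stepX β V) = ((PT l D m).map (fun ω => (nR ω, sub ω))).map
      (fun q => 1 / (1 + rs (fun ω' => sfun β (V ω') (mk ω')) q)) := by
    rw [Measure.map_map hg (measurable_nR.prodMk measurable_sub)]
    rfl
  rw [h1, tree_gen]
  unfold TX
  unfold Ind at hI
  rw [← hI, ← Gen_map l _ hh, Measure.map_map (measurable_TXfun β)]
  · rfl
  · refine Measurable.prodMk measurable_fst ?_
    refine measurable_pi_lambda _ fun n => ?_
    exact hh.comp ((measurable_pi_apply n).comp measurable_snd)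

/-- iterates of the recursion -/
noncomputable def XX (β : ℝ) (f : M → ℝ) : ℕ → Tree M → ℝ
  | 0 => fun ω => f (mrk ω)
  | n + 1 => stepX β (XX β f n)

lemma measurable_XX {f : M → ℝ} (hf : Measurable f) : ∀ n, Measurable (XX β f n)
  | 0 => hf.comp measurable_mrk
  | n + 1 => measurable_stepX (measurable_XX hf n)

lemma XX_mem (hβ : 0 ≤ β) {f : M → ℝ} (hf : ∀ y, f y ∈ Icc (0 : ℝ) 1) :
    ∀ n ω, XX β f n ω ∈ Icc (0 : ℝ) 1
  | 0, ω => hf _
  | n + 1, ω => by
    have := stepX_mem hβ (V := XX β f n) (fun ω => (XX_mem hβ hf n ω).1) ω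
    exact ⟨this.1.le, this.2⟩

lemma XX_mono (hβ : 0 ≤ β) {f g : M → ℝ} (hf : ∀ y, f y ∈ Icc (0 : ℝ) 1)
    (hfg : ∀ y, f y ≤ g y) : ∀ n ω, XX β f n ω ≤ XX β g n ω
  | 0, ω => hfg _
  | n + 1, ω => stepX_mono hβ (fun ω => (XX_mem hβ hf n ω).1) (XX_mono hβ hf hfg n) ω

lemma XX_zero_mono (hβ : 0 ≤ β) : ∀ n (ω : Tree M),
    XX β (fun _ => 0) n ω ≤ XX β (fun _ => 0) (n + 1) ω
  | 0, ω => (XX_mem hβ (f := fun _ : M => (0 : ℝ)) (by simp) 1 ω).1
  | n + 1, ω => stepX_mono hβ (fun ω => (XX_mem hβ (by simp) n ω).1) (XX_zero_mono hβ n) ω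

lemma XX_one_anti (hβ : 0 ≤ β) : ∀ n (ω : Tree M),
    XX β (fun _ => 1) (n + 1) ω ≤ XX β (fun _ => 1) n ω
  | 0, ω => (XX_mem hβ (f := fun _ : M => (1 : ℝ)) (by simp) 1 ω).2
  | n + 1, ω => stepX_mono hβ (fun ω => (XX_mem hβ (by simp) (n + 1) ω).1) (XX_one_anti hβ n) ω

lemma ind_XX {f : M → ℝ} (hf : Measurable f) (n : ℕ) : Ind l D m (XX β f n) := by
  cases n with
  | zero => exact ind_of_rep m (V' := fun p => f p.1.2) (by fun_prop) (fun ω => rfl)
  | succ n => exact ind_stepX m (measurable_XX hf n)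

lemma law_XX_fix {f : M → ℝ} (hf : Measurable f) {μ : Measure ℝ} [IsProbabilityMeasure μ]
    (hμ : IsFix l β D μ) (h0 : m.map f = μ) : ∀ n, (PT l D m).map (XX β f n) = μ
  | 0 => by
    have h1 := tree_law l D m (V' := fun p => f p.1.2) (by fun_prop)
    have h2 : (PT l D m).map (XX β f 0) = (PT l D m).map (fun ω => f (mrk ω)) := rfl
    rw [h2]
    refine h1.trans ?_
    have h3 : (((poissonMeasure l).prod m).prod
        (Measure.infinitePi fun _ : ℕ => PT l D m)).map (fun p => f p.1.2) =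
        (((((poissonMeasure l).prod m).prod
        (Measure.infinitePi fun _ : ℕ => PT l D m)).map Prod.fst).map Prod.snd).map f := by
      rw [Measure.map_map measurable_snd measurable_fst, Measure.map_map hf (by fun_prop)]
      rfl
    rw [h3, Measure.map_fst_prod, measure_univ, one_smul, Measure.map_snd_prod, measure_univ,
      one_smul, h0]
  | n + 1 => by
    have := law_stepX (β := β) m (measurable_XX (β := β) hf n) (ind_XX (l := l) (D := D) m hf n)
    show (PT l D m).map (stepX β (XX β f n)) = μ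
    rw [this, law_XX_fix hf hμ h0 n, hμ.fix]

end TreeX

end Pool.Agent.Q287.JR
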