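import Pool.Agent.Q287.JR.JR4

open MeasureTheory ProbabilityTheory Set Filter
open scoped ENNReal NNReal Topology

namespace Pool.Agent.Q287.JR

variable {l : ℝ≥0} {β : ℝ} {D : Measure ℝ} [IsProbabilityMeasure D]
variable {M : Type*} [MeasurableSpace M] (m : Measure M) [IsProbabilityMeasure m]

lemma sfun_tendsto (hβ : 0 ≤ β) {x : ℕ → ℝ} {y : ℝ} (h : Tendsto x atTop (𝓝 y)) (hy : 0 ≤ y)
    (e : ℝ × ℝ) : Tendsto (fun n => sfun β (x n) e) atTop (𝓝 (sfun β y e)) := by
  unfold sfun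
  refine Tendsto.div tendsto_const_nhds ?_ (by positivity)
  exact tendsto_const_nhds.add (tendsto_const_nhds.mul h)

lemma stepX_tendsto (hβ : 0 ≤ β) {V : ℕ → Tree M → ℝ} {W : Tree M → ℝ} (ω : Tree M)
    (h : ∀ k, Tendsto (fun n => V n (sub ω k)) atTop (𝓝 (W (sub ω k))))
    (hW : ∀ ω, 0 ≤ W ω) :
    Tendsto (fun n => stepX β (V n) ω) atTop (𝓝 (stepX β W ω)) := by
  unfold stepX
  have h0 : 0 ≤ rs (fun ω' => sfun β (W ω') (mk ω')) (nR ω, sub ω) :=
    rs_nonneg fun k => sfun_nonneg hβ (hW _) _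
  refine Tendsto.div tendsto_const_nhds ?_ (by positivity)
  refine tendsto_const_nhds.add ?_
  unfold rs
  exact tendsto_finsetSum _ fun k _ => sfun_tendsto hβ (h k) (hW _) _

/-- upper limit -/
noncomputable def Vp (M : Type*) (β : ℝ) (ω : Tree M) : ℝ := ⨅ n, XX β (fun _ : M => (1 : ℝ)) n ω
/-- lower limit -/
noncomputable def Vm (M : Type*) (β : ℝ) (ω : Tree M) : ℝ := ⨆ n, XX β (fun _ : M => (0 : ℝ)) n ω

lemma XX_one_mem (hβ : 0 ≤ β) (n : ℕ) (ω : Tree M) :
    XX β (fun _ : M => (1 : ℝ)) n ω ∈ Icc (0 : ℝ) 1 := XX_mem hβ (by simp) n ω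
lemma XX_zero_mem (hβ : 0 ≤ β) (n : ℕ) (ω : Tree M) :
    XX β (fun _ : M => (0 : ℝ)) n ω ∈ Icc (0 : ℝ) 1 := XX_mem hβ (by simp) n ω

lemma tendsto_Vp (hβ : 0 ≤ β) (ω : Tree M) :
    Tendsto (fun n => XX β (fun _ : M => (1 : ℝ)) n ω) atTop (𝓝 (Vp M β ω)) :=
  tendsto_atTop_ciInf (antitone_nat_of_succ_le fun n => XX_one_anti hβ n ω)
    ⟨0, by rintro _ ⟨n, rfl⟩; exact (XX_one_mem hβ n ω).1⟩

lemma tendsto_Vm (hβ : 0 ≤ β) (ω : Tree M) :
    Tendsto (fun n => XX β (fun _ : M => (0 : ℝ)) n ω) atTop (𝓝 (Vm M β ω)) :=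
  tendsto_atTop_ciSup (monotone_nat_of_le_succ fun n => XX_zero_mono hβ n ω)
    ⟨1, by rintro _ ⟨n, rfl⟩; exact (XX_zero_mem hβ n ω).2⟩

lemma Vp_mem (hβ : 0 ≤ β) (ω : Tree M) : Vp M β ω ∈ Icc (0 : ℝ) 1 :=
  isClosed_Icc.mem_of_tendsto (tendsto_Vp hβ ω) (Eventually.of_forall fun n => XX_one_mem hβ n ω)

lemma Vm_mem (hβ : 0 ≤ β) (ω : Tree M) : Vm M β ω ∈ Icc (0 : ℝ) 1 :=
  isClosed_Icc.mem_of_tendsto (tendsto_Vm hβ ω) (Eventually.of_forall fun n => XX_zero_mem hβ n ω)

lemma Vm_le_Vp (hβ : 0 ≤ β) (ω : Tree M) : Vm M β ω ≤ Vp M β ω :=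
  le_of_tendsto_of_tendsto' (tendsto_Vm hβ ω) (tendsto_Vp hβ ω)
    fun n => XX_mono hβ (by simp) (by simp) n ω

lemma measurable_Vp : Measurable (Vp M β) :=
  Measurable.iInf fun n => measurable_XX measurable_const n

lemma measurable_Vm : Measurable (Vm M β) :=
  Measurable.iSup fun n => measurable_XX measurable_const n

lemma Vp_rec (hβ : 0 ≤ β) (ω : Tree M) : Vp M β ω = stepX β (Vp M β) ω := by
  refine tendsto_nhds_unique (((tendsto_add_atTop_iff_nat 1).2 (tendsto_Vp hβ ω))) ?_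
  exact stepX_tendsto hβ ω (fun k => tendsto_Vp hβ _) fun ω => (Vp_mem hβ ω).1

lemma Vm_rec (hβ : 0 ≤ β) (ω : Tree M) : Vm M β ω = stepX β (Vm M β) ω := by
  refine tendsto_nhds_unique (((tendsto_add_atTop_iff_nat 1).2 (tendsto_Vm hβ ω))) ?_
  exact stepX_tendsto hβ ω (fun k => tendsto_Vm hβ _) fun ω => (Vm_mem hβ ω).1

lemma isFix_of_rec {V : Tree M → ℝ} (hV : Measurable V) (hmem : ∀ ω, V ω ∈ Icc (0 : ℝ) 1)
    (hrec : ∀ ω, V ω = stepX β V ω) : IsFix l β D ((PT l D m).map V) := by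
  have hI : Ind l D m V := by
    have : V = stepX β V := funext hrec
    rw [this]
    exact ind_stepX m hV
  constructor
  · rw [← law_stepX m hV hI]
    congr 1
    exact (funext hrec).symm
  · exact (ae_map_iff (p := fun x => x ∈ Icc (0 : ℝ) 1) hV.aemeasurable measurableSet_Icc).2
      (Eventually.of_forall hmem)

lemma Vm_eq_Vp (hβ : 0 ≤ β) : ∀ᵐ ω ∂(PT l D m), Vm M β ω = Vp M β ω := by
  set P := PT l D m with hP
  have hp := isFix_of_rec (l := l) (D := D) m (measurable_Vp (M := M) (β := β)) (Vp_mem hβ)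
    (Vp_rec hβ)
  have hm := isFix_of_rec (l := l) (D := D) m (measurable_Vm (M := M) (β := β)) (Vm_mem hβ)
    (Vm_rec hβ)
  have hpm : IsProbabilityMeasure (P.map (Vp M β)) :=
    Measure.isProbabilityMeasure_map measurable_Vp.aemeasurable
  have hmm : IsProbabilityMeasure (P.map (Vm M β)) :=
    Measure.isProbabilityMeasure_map measurable_Vm.aemeasurable
  have i1 := fix_identity hβ hp
  have i2 := fix_identity hβ hm
  -- express through the tree
  have hform : ∀ V : Tree M → ℝ, Measurable V →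
      ∫⁻ p, ENNReal.ofReal (fsym β p) ∂((D.prod D).prod ((P.map V).prod (P.map V))) =
      ∫⁻ p : (ℝ × ℝ) × (Tree M × Tree M), ENNReal.ofReal (fsym β (p.1, (V p.2.1, V p.2.2)))
        ∂((D.prod D).prod (P.prod P)) := by
    intro V hV
    have : IsProbabilityMeasure (P.map V) := Measure.isProbabilityMeasure_map hV.aemeasurable
    rw [Measure.map_prod_map _ _ hV hV]
    have h2 : (D.prod D).prod ((P.prod P).map (Prod.map V V)) =
        ((D.prod D).prod (P.prod P)).map (Prod.map id (Prod.map V V)) := by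
      rw [← Measure.map_prod_map _ _ measurable_id (hV.prodMap hV), Measure.map_id]
    rw [h2, lintegral_map (measurable_fsym β).ennreal_ofReal
      (measurable_id.prodMap (hV.prodMap hV))]
    rfl
  have hle : ∫⁻ p, ENNReal.ofReal (fsym β p)
        ∂((D.prod D).prod ((P.map (Vm M β)).prod (P.map (Vm M β)))) ≤
      ∫⁻ p, ENNReal.ofReal (fsym β p)
        ∂((D.prod D).prod ((P.map (Vp M β)).prod (P.map (Vp M β)))) := by
    rw [hform _ measurable_Vp, hform _ measurable_Vm]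
    refine lintegral_mono fun p => ENNReal.ofReal_le_ofReal ?_
    have a1 := Vm_le_Vp hβ p.2.1
    have a2 := Vm_le_Vp hβ p.2.2
    have b1 := (Vm_mem hβ p.2.1).1
    have b2 := (Vm_mem hβ p.2.2).1
    unfold fsym
    simp only
    set u := 2 * β * p.1.1 ^ 2 * Vm M β p.2.1 + 2 * β * p.1.2 ^ 2 * Vm M β p.2.2 with hu
    set v := 2 * β * p.1.1 ^ 2 * Vp M β p.2.1 + 2 * β * p.1.2 ^ 2 * Vp M β p.2.2 with hv
    have huv : u ≤ v := by rw [hu, hv]; gcongr
    have hu0 : 0 ≤ u := by positivity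
    rw [add_assoc, add_assoc, ← hu, ← hv, div_le_div_iff₀ (by positivity) (by linarith)]
    nlinarith
  have hle2 : ∫⁻ x, ENNReal.ofReal (1 - x) ∂(P.map (Vm M β)) ≤
      ∫⁻ x, ENNReal.ofReal (1 - x) ∂(P.map (Vp M β)) := by
    have h3 : 2 * ∫⁻ x, ENNReal.ofReal (1 - x) ∂(P.map (Vm M β)) ≤
      2 * ∫⁻ x, ENNReal.ofReal (1 - x) ∂(P.map (Vp M β)) := by
      rw [i1, i2]; gcongr
    exact (ENNReal.mul_le_mul_iff_right (by norm_num) (by norm_num)).1 h3
  rw [lintegral_map (by fun_prop) measurable_Vm, lintegral_map (by fun_prop) measurable_Vp] at hle2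
  have hfin : ∫⁻ ω, ENNReal.ofReal (1 - Vp M β ω) ∂P ≠ ∞ := by
    refine ne_of_lt (lt_of_le_of_lt (lintegral_mono (g := fun _ => 1) fun ω => ?_) (by simp))
    rw [← ENNReal.ofReal_one]
    exact ENNReal.ofReal_le_ofReal (by linarith [(Vp_mem hβ ω).1])
  have hae := ae_eq_of_ae_le_of_lintegral_le (μ := P)
    (f := fun ω => ENNReal.ofReal (1 - Vp M β ω)) (g := fun ω => ENNReal.ofReal (1 - Vm M β ω))
    (Eventually.of_forall fun ω => ENNReal.ofReal_le_ofReal (by linarith [Vm_le_Vp hβ ω]))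
    hfin ((measurable_const.sub measurable_Vm).ennreal_ofReal.aemeasurable) hle2
  filter_upwards [hae] with ω hω
  have := (ENNReal.ofReal_eq_ofReal_iff (by linarith [(Vp_mem hβ ω).2])
    (by linarith [(Vm_mem hβ ω).2])).1 hω
  linarith

/-- law of an a.s. limit of random variables with constant law -/
lemma law_limit {Ω : Type*} [MeasurableSpace Ω] {P : Measure Ω} [IsProbabilityMeasure P]
    {Y : ℕ → Ω → ℝ} {V : Ω → ℝ} (hY : ∀ n, Measurable (Y n)) (hV : Measurable V)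
    {μ : Measure ℝ} (h : ∀ n, P.map (Y n) = μ)
    (hlim : ∀ᵐ ω ∂P, Tendsto (fun n => Y n ω) atTop (𝓝 (V ω))) : P.map V = μ := by
  have hpμ : IsProbabilityMeasure μ := by
    rw [← h 0]; exact Measure.isProbabilityMeasure_map (hY 0).aemeasurable
  have hpV : IsProbabilityMeasure (P.map V) := Measure.isProbabilityMeasure_map hV.aemeasurable
  refine ext_of_forall_integral_eq_of_IsFiniteMeasure fun f => ?_
  rw [integral_map hV.aemeasurable f.continuous.aestronglyMeasurable]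
  have h1 : Tendsto (fun n => ∫ ω, f (Y n ω) ∂P) atTop (𝓝 (∫ ω, f (V ω) ∂P)) := by
    refine tendsto_integral_of_dominated_convergence (fun _ => ‖f‖)
      (fun n => (f.continuous.measurable.comp (hY n)).aestronglyMeasurable) (integrable_const _)
      (fun n => Eventually.of_forall fun ω => f.norm_coe_le_norm _) ?_
    filter_upwards [hlim] with ω hω
    exact (f.continuous.tendsto _).comp hω
  have h2 : ∀ n, ∫ ω, f (Y n ω) ∂P = ∫ x, f x ∂μ := fun n => by
    rw [← h n, integral_map (hY n).aemeasurable f.continuous.aestronglyMeasurable]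
  simp only [h2] at h1
  exact (tendsto_nhds_unique tendsto_const_nhds h1).symm

theorem fix_unique (hβ : 0 ≤ β) {μ μ' : Measure ℝ} [IsProbabilityMeasure μ]
    [IsProbabilityMeasure μ'] (hμ : IsFix l β D μ) (hμ' : IsFix l β D μ') : μ = μ' := by
  set mm : Measure (ℝ × ℝ) := μ.prod μ' with hmm
  set cl : ℝ → ℝ := fun x => max 0 (min x 1) with hcl
  have hclm : Measurable cl := measurable_const.max (measurable_id.min measurable_const)
  have hclmem : ∀ x, cl x ∈ Icc (0 : ℝ) 1 := fun x =>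
    ⟨le_max_left _ _, max_le zero_le_one (min_le_right _ _)⟩
  have hclid : ∀ x ∈ Icc (0 : ℝ) 1, cl x = x := fun x hx => by
    simp [hcl, hx.1, hx.2]
  have hmap : ∀ ν : Measure ℝ, IsFix l β D ν → ν.map cl = ν := fun ν hν => by
    conv_rhs => rw [← Measure.map_id (μ := ν)]
    refine Measure.map_congr ?_
    filter_upwards [hν.mem] with x hx
    rw [hclid x hx]; rfl
  have h1 : mm.map (fun p => cl p.1) = μ := by
    have : mm.map (fun p => cl p.1) = (mm.map Prod.fst).map cl := by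
      rw [Measure.map_map hclm measurable_fst]; rfl
    rw [this, hmm, Measure.map_fst_prod, measure_univ, one_smul, hmap μ hμ]
  have h2 : mm.map (fun p => cl p.2) = μ' := by
    have : mm.map (fun p => cl p.2) = (mm.map Prod.snd).map cl := by
      rw [Measure.map_map hclm measurable_snd]; rfl
    rw [this, hmm, Measure.map_snd_prod, measure_univ, one_smul, hmap μ' hμ']
  have key : ∀ (f : ℝ × ℝ → ℝ), Measurable f → (∀ y, f y ∈ Icc (0 : ℝ) 1) →
      ∀ᵐ ω ∂(PT l D mm), Tendsto (fun n => XX β f n ω) atTop (𝓝 (Vp (ℝ × ℝ) β ω)) := by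
    intro f hf hfm
    filter_upwards [Vm_eq_Vp (l := l) (D := D) mm hβ] with ω hω
    refine tendsto_of_tendsto_of_tendsto_of_le_of_le (hω ▸ tendsto_Vm hβ ω) (tendsto_Vp hβ ω)
      (fun n => XX_mono hβ (by simp) (fun y => (hfm y).1) n ω)
      (fun n => XX_mono hβ hfm (fun y => (hfm y).2) n ω)
  have e1 := law_limit (fun n => measurable_XX (hclm.comp measurable_fst) n) measurable_Vp
    (law_XX_fix (l := l) (β := β) (D := D) mm (hclm.comp measurable_fst) hμ h1)
    (key _ (hclm.comp measurable_fst) fun y => hclmem _)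
  have e2 := law_limit (fun n => measurable_XX (hclm.comp measurable_snd) n) measurable_Vp
    (law_XX_fix (l := l) (β := β) (D := D) mm (hclm.comp measurable_snd) hμ' h2)
    (key _ (hclm.comp measurable_snd) fun y => hclmem _)
  rw [← e1, ← e2]

end Pool.Agent.Q287.JR
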