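import Pool.Agent.Q287.JR.JR5

open MeasureTheory ProbabilityTheory Set Filter
open scoped ENNReal NNReal Topology

set_option linter.unusedSectionVars false

namespace Pool.Agent.Q287.JR

variable {l : ℝ≥0} {β : ℝ} {D : Measure ℝ} [IsProbabilityMeasure D]
variable {μ : Measure ℝ} [IsProbabilityMeasure μ]

/-- weight `|A|` -/
noncomputable def c1 (β : ℝ) (x : ℝ) (e : ℝ × ℝ) : ℝ≥0∞ :=
  ENNReal.ofReal (2 * β * |e.1| * |e.2| * x / (1 + 2 * β * e.1 ^ 2 * x))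
/-- weight with both marks on the parent side -/
noncomputable def cA (β : ℝ) (x : ℝ) (e : ℝ × ℝ) : ℝ≥0∞ :=
  ENNReal.ofReal (2 * β * e.2 ^ 2 * x / (1 + 2 * β * e.1 ^ 2 * x))
/-- weight with both marks on the child side -/
noncomputable def cB (β : ℝ) (x : ℝ) (e : ℝ × ℝ) : ℝ≥0∞ :=
  ENNReal.ofReal (2 * β * e.1 ^ 2 * x / (1 + 2 * β * e.1 ^ 2 * x))

lemma measurable_c1 : Measurable (fun z : ℝ × (ℝ × ℝ) => c1 β z.1 z.2) := by
  unfold c1; fun_prop
lemma measurable_cA : Measurable (fun z : ℝ × (ℝ × ℝ) => cA β z.1 z.2) := by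
  unfold cA; fun_prop
lemma measurable_cB : Measurable (fun z : ℝ × (ℝ × ℝ) => cB β z.1 z.2) := by
  unfold cB; fun_prop

/-- the constant `κ` -/
noncomputable def kap (l : ℝ≥0) (β : ℝ) (D : Measure ℝ) : ℝ≥0∞ :=
  l * (ENNReal.ofReal (2 * β) * ∫⁻ x, ENNReal.ofReal (x ^ 2) ∂D)

lemma lint_snd_sq (hβ : 0 ≤ β) : ∫⁻ e, ENNReal.ofReal (2 * β * e.2 ^ 2) ∂(D.prod D) =
    ENNReal.ofReal (2 * β) * ∫⁻ x, ENNReal.ofReal (x ^ 2) ∂D := by
  have h : ∀ e : ℝ × ℝ, ENNReal.ofReal (2 * β * e.2 ^ 2) =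
      ENNReal.ofReal (2 * β) * ENNReal.ofReal (e.2 ^ 2) := fun e => by
    rw [← ENNReal.ofReal_mul (by positivity)]
  simp only [h]
  rw [lintegral_const_mul _ (by fun_prop), lintegral_prod _ (by fun_prop)]
  simp

lemma lint_fst_sq (hβ : 0 ≤ β) : ∫⁻ e, ENNReal.ofReal (2 * β * e.1 ^ 2) ∂(D.prod D) =
    ENNReal.ofReal (2 * β) * ∫⁻ x, ENNReal.ofReal (x ^ 2) ∂D := by
  have h : ∀ e : ℝ × ℝ, ENNReal.ofReal (2 * β * e.1 ^ 2) =
      ENNReal.ofReal (2 * β) * ENNReal.ofReal (e.1 ^ 2) := fun e => by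
    rw [← ENNReal.ofReal_mul (by positivity)]
  simp only [h]
  rw [lintegral_const_mul _ (by fun_prop), lintegral_prod _ (by fun_prop)]
  simp

lemma child_nonneg (hβ : 0 ≤ β) {x x' : ℝ} (hx : 0 ≤ x) (hx' : 0 ≤ x') (e : ℝ × ℝ) :
    0 ≤ x' / (1 + x' * sfun β x e) := by
  have := sfun_nonneg hβ hx e
  positivity

lemma child_le (hβ : 0 ≤ β) {x x' : ℝ} (hx : 0 ≤ x) (hx' : 0 ≤ x') (e : ℝ × ℝ) :
    x' / (1 + x' * sfun β x e) ≤ x' := by
  have := sfun_nonneg hβ hx e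
  apply div_le_self hx'
  nlinarith [mul_nonneg hx' this]

lemma child_mono (hβ : 0 ≤ β) {x y x' : ℝ} (hx : 0 ≤ x) (hxy : x ≤ y) (hx' : 0 ≤ x')
    (e : ℝ × ℝ) : x' / (1 + x' * sfun β x e) ≤ x' / (1 + x' * sfun β y e) := by
  have h1 := sfun_nonneg hβ (hx.trans hxy) e
  have h2 := sfun_anti hβ hx hxy e
  gcongr

lemma Kop_mono (hβ : 0 ≤ β) (hμ0 : ∀ᵐ x ∂μ, 0 ≤ x) {c : ℝ → ℝ × ℝ → ℝ≥0∞}
    {w w' : ℝ → ℝ≥0∞} (h : ∀ x, 0 ≤ x → w x ≤ w' x) {x : ℝ} (hx : 0 ≤ x) :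
    Kop l β D μ c w x ≤ Kop l β D μ c w' x := by
  unfold Kop
  refine mul_le_mul' le_rfl (lintegral_mono fun e => mul_le_mul' le_rfl ?_)
  refine lintegral_mono_ae ?_
  filter_upwards [hμ0] with x' hx'
  exact h _ (child_nonneg hβ hx hx' e)

omit [IsProbabilityMeasure D] [IsProbabilityMeasure μ] in
lemma Kop_const_mul {c : ℝ → ℝ × ℝ → ℝ≥0∞} {w : ℝ → ℝ≥0∞} {a : ℝ≥0∞} (ha : a ≠ ∞) (x : ℝ) :
    Kop l β D μ c (fun y => a * w y) x = a * Kop l β D μ c w x := by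
  unfold Kop
  simp only [lintegral_const_mul' _ _ ha]
  have h : ∀ e, c x e * (a * ∫⁻ x', w (x' / (1 + x' * sfun β x e)) ∂μ) =
      a * (c x e * ∫⁻ x', w (x' / (1 + x' * sfun β x e)) ∂μ) := fun e => by ring
  simp only [h, lintegral_const_mul' _ _ ha]
  ring

/-- iterates starting at the identity -/
noncomputable def It (l : ℝ≥0) (β : ℝ) (D μ : Measure ℝ) (c : ℝ → ℝ × ℝ → ℝ≥0∞) :
    ℕ → ℝ → ℝ≥0∞
  | 0 => ENNReal.ofReal
  | n + 1 => Kop l β D μ c (It l β D μ c n)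

lemma measurable_It {c : ℝ → ℝ × ℝ → ℝ≥0∞} (hc : Measurable (fun z : ℝ × (ℝ × ℝ) => c z.1 z.2)) :
    ∀ n, Measurable (It l β D μ c n)
  | 0 => ENNReal.measurable_ofReal
  | n + 1 => measurable_Kop hc (measurable_It hc n)

/-! ### (i) boundedness of the `A`-iterates -/

lemma Kop_cA_monotone (hβ : 0 ≤ β) (hμ0 : ∀ᵐ x ∂μ, 0 ≤ x)
    {w : ℝ → ℝ≥0∞} (h : ∀ x y, 0 ≤ x → x ≤ y → w x ≤ w y) {x y : ℝ} (hx : 0 ≤ x) (hxy : x ≤ y) :
    Kop l β D μ (cA β) w x ≤ Kop l β D μ (cA β) w y := by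
  unfold Kop
  refine mul_le_mul' le_rfl (lintegral_mono fun e => mul_le_mul' ?_ ?_)
  · unfold cA
    refine ENNReal.ofReal_le_ofReal ?_
    have hy : 0 ≤ y := hx.trans hxy
    rw [div_le_div_iff₀ (by positivity) (by positivity)]
    have : 0 ≤ 2 * β * e.2 ^ 2 := by positivity
    nlinarith [mul_le_mul_of_nonneg_left hxy this]
  · refine lintegral_mono_ae ?_
    filter_upwards [hμ0] with x' hx'
    exact h _ _ (child_nonneg hβ hx hx' e) (child_mono hβ hx hxy hx' e)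

lemma It_cA_monotone (hβ : 0 ≤ β) (hμ0 : ∀ᵐ x ∂μ, 0 ≤ x) : ∀ (n : ℕ) (x y : ℝ), 0 ≤ x → x ≤ y →
    It l β D μ (cA β) n x ≤ It l β D μ (cA β) n y
  | 0, _, _, _, hxy => ENNReal.ofReal_le_ofReal hxy
  | n + 1, _, _, hx, hxy =>
    Kop_cA_monotone hβ hμ0 (It_cA_monotone hβ hμ0 n) hx hxy

lemma Kop_cA_le (hβ : 0 ≤ β) (hμ0 : ∀ᵐ x ∂μ, 0 ≤ x)
    {w : ℝ → ℝ≥0∞} (h : ∀ x y, 0 ≤ x → x ≤ y → w x ≤ w y) {x : ℝ} (hx : 0 ≤ x) :
    Kop l β D μ (cA β) w x ≤ kap l β D * ENNReal.ofReal x * ∫⁻ x', w x' ∂μ := by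
  unfold Kop
  have h1 : ∀ e : ℝ × ℝ, cA β x e * ∫⁻ x', w (x' / (1 + x' * sfun β x e)) ∂μ ≤
      ENNReal.ofReal (2 * β * e.2 ^ 2) * (ENNReal.ofReal x * ∫⁻ x', w x' ∂μ) := by
    intro e
    rw [← mul_assoc]
    gcongr ?_ * ?_
    · rw [← ENNReal.ofReal_mul (by positivity)]
      unfold cA
      refine ENNReal.ofReal_le_ofReal ?_
      apply div_le_self (by positivity)
      have : 0 ≤ 2 * β * e.1 ^ 2 * x := by positivity
      linarith
    · refine lintegral_mono_ae ?_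
      filter_upwards [hμ0] with x' hx'
      exact h _ _ (child_nonneg hβ hx hx' e) (child_le hβ hx hx' e)
  calc (l : ℝ≥0∞) * ∫⁻ e, cA β x e * ∫⁻ x', w (x' / (1 + x' * sfun β x e)) ∂μ ∂(D.prod D)
      ≤ l * ∫⁻ e, ENNReal.ofReal (2 * β * e.2 ^ 2) * (ENNReal.ofReal x * ∫⁻ x', w x' ∂μ)
          ∂(D.prod D) := by
        exact mul_le_mul' le_rfl (lintegral_mono h1)
    _ = kap l β D * ENNReal.ofReal x * ∫⁻ x', w x' ∂μ := by
        rw [lintegral_mul_const _ (by fun_prop), lint_snd_sq hβ]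
        unfold kap
        ring

lemma It_cA_inv (hβ : 0 ≤ β) (hμ : IsFix l β D μ) : ∀ n,
    ∫⁻ x, ENNReal.ofReal (1 / x) * It l β D μ (cA β) n x ∂μ ≤ 1
  | 0 => by
    have hpos := hμ.pos hβ
    calc ∫⁻ x, ENNReal.ofReal (1 / x) * It l β D μ (cA β) 0 x ∂μ = ∫⁻ _, 1 ∂μ := by
          refine lintegral_congr_ae ?_
          filter_upwards [hpos] with x hx
          show ENNReal.ofReal (1 / x) * ENNReal.ofReal x = 1
          rw [← ENNReal.ofReal_mul (by positivity), one_div_mul_cancel hx.ne', ENNReal.ofReal_one]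
      _ ≤ 1 := by simp
  | n + 1 => by
    refine le_trans ?_ (It_cA_inv hβ hμ n)
    have hpos := hμ.pos hβ
    have h := oneStep (μ := μ) (γ := μ) (X := id) hβ hμ measurable_id Measure.map_id
      (c := cA β) measurable_cA
      (d := fun x => ENNReal.ofReal (1 / x)) (by fun_prop)
      (w := It l β D μ (cA β) n)
      (measurable_It (l := l) (β := β) (D := D) (μ := μ) (measurable_cA (β := β)) n)
    simp only [id] at h
    show ∫⁻ x, ENNReal.ofReal (1 / x) * Kop l β D μ (cA β) (It l β D μ (cA β) n) x ∂μ ≤ _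
    rw [← h]
    have hF : Measurable (fun x : ℝ => ENNReal.ofReal (1 / x) * It l β D μ (cA β) n x) :=
      Measurable.mul (by fun_prop) (measurable_It measurable_cA n)
    rw [hμ.lintegral hF]
    have h1 : ∀ᵐ z ∂(μ.prod (D.prod D)), 0 < z.1 := ae_fst_prod (p := fun x => 0 < x) hpos
    refine lintegral_mono_ae ?_
    filter_upwards [ae_Gen l (μ.prod (D.prod D)) h1] with q hq
    have hs : ∀ k, 0 ≤ sfun β (q.2 k).1 (q.2 k).2 := fun k => sfun_nonneg hβ (hq k).le _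
    have h2 : rse (fun z : ℝ × (ℝ × ℝ) => cA β z.1 z.2 * ENNReal.ofReal (1 / z.1)) q =
        ENNReal.ofReal (rs (fun z : ℝ × (ℝ × ℝ) => sfun β z.1 z.2) q) := by
      rw [← rse_ofReal hs]
      unfold rse
      refine Finset.sum_congr rfl fun k _ => ?_
      have hk := hq k
      unfold cA
      beta_reduce
      rw [← ENNReal.ofReal_mul (by positivity)]
      congr 1
      unfold sfun
      field_simp
    rw [h2, mul_comm]
    gcongr
    have := rs_nonneg (s := fun z : ℝ × (ℝ × ℝ) => sfun β z.1 z.2) (q := q) hs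
    have h3 : 1 + rs (fun z : ℝ × (ℝ × ℝ) => sfun β z.1 z.2) q ≠ 0 := by positivity
    rw [one_div_one_div]
    linarith

lemma It_cA_mean (hβ : 0 ≤ β) (hμ : IsFix l β D μ) (n : ℕ) :
    ∫⁻ x, It l β D μ (cA β) n x ∂μ ≤ 1 := by
  refine le_trans ?_ (It_cA_inv hβ hμ n)
  refine lintegral_mono_ae ?_
  filter_upwards [hμ.pos hβ, hμ.mem] with x hx hx1
  have h1 : (1 : ℝ≥0∞) ≤ ENNReal.ofReal (1 / x) := by
    rw [← ENNReal.ofReal_one]
    refine ENNReal.ofReal_le_ofReal ?_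
    rw [le_div_iff₀ hx]
    linarith [hx1.2]
  calc It l β D μ (cA β) n x = 1 * It l β D μ (cA β) n x := (one_mul _).symm
    _ ≤ _ := by gcongr

lemma It_cA_bound (hβ : 0 ≤ β) (hμ : IsFix l β D μ) (n : ℕ) {x : ℝ} (hx : 0 ≤ x) :
    It l β D μ (cA β) n x ≤ (1 + kap l β D) * ENNReal.ofReal x := by
  have h0 : ∀ᵐ x ∂μ, 0 ≤ x := (hμ.pos hβ).mono fun x hx => hx.le
  cases n with
  | zero =>
    show ENNReal.ofReal x ≤ _
    rw [add_mul, one_mul]
    exact le_self_add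
  | succ n =>
    calc It l β D μ (cA β) (n + 1) x
        ≤ kap l β D * ENNReal.ofReal x * ∫⁻ x', It l β D μ (cA β) n x' ∂μ :=
          Kop_cA_le hβ h0 (It_cA_monotone hβ h0 n) hx
      _ ≤ kap l β D * ENNReal.ofReal x * 1 := by
          gcongr; exact It_cA_mean hβ hμ n
      _ ≤ (1 + kap l β D) * ENNReal.ofReal x := by
          rw [mul_one, add_mul, one_mul]
          exact le_add_self

/-! ### (ii) contraction for the `B`-weights -/

/-- the exact solution of `W = id + K_B W` -/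
noncomputable def WW (l : ℝ≥0) (β : ℝ) (D μ : Measure ℝ) (x : ℝ) : ℝ≥0∞ :=
  ENNReal.ofReal x + l * ∫⁻ z : ℝ × (ℝ × ℝ),
    ENNReal.ofReal (x * sfun β z.1 z.2 / (1 + x * sfun β z.1 z.2)) ∂(μ.prod (D.prod D))

lemma msf {α' : Type*} [MeasurableSpace α'] {g1 : α' → ℝ} {g2 : α' → ℝ × ℝ}
    (h1 : Measurable g1) (h2 : Measurable g2) : Measurable (fun z => sfun β (g1 z) (g2 z)) :=
  (measurable_sfun β).comp (h1.prodMk h2)

lemma measurable_WWg {α' : Type*} [MeasurableSpace α'] {g0 g1 : α' → ℝ} {g2 : α' → ℝ × ℝ}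
    (h0 : Measurable g0) (h1 : Measurable g1) (h2 : Measurable g2) : Measurable (fun z =>
    ENNReal.ofReal (g0 z * sfun β (g1 z) (g2 z) / (1 + g0 z * sfun β (g1 z) (g2 z)))) := by
  have h3 := h0.mul (msf (β := β) h1 h2)
  exact (h3.div (measurable_const.add h3)).ennreal_ofReal

lemma measurable_WWint : Measurable (fun p : ℝ × (ℝ × (ℝ × ℝ)) =>
    ENNReal.ofReal (p.1 * sfun β p.2.1 p.2.2 / (1 + p.1 * sfun β p.2.1 p.2.2))) :=
  measurable_WWg measurable_fst (by fun_prop) (by fun_prop)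

lemma measurable_WW : Measurable (WW l β D μ) := by
  unfold WW
  refine ENNReal.measurable_ofReal.add (Measurable.const_mul ?_ _)
  exact measurable_WWint.lintegral_prod_right'

lemma WW_le (hβ : 0 ≤ β) (hμ0 : ∀ᵐ x ∂μ, 0 ≤ x) {x : ℝ} (hx : 0 ≤ x) :
    WW l β D μ x ≤ (1 + kap l β D) * ENNReal.ofReal x := by
  unfold WW kap
  rw [add_mul, one_mul]
  refine add_le_add le_rfl ?_
  rw [mul_assoc]
  refine mul_le_mul' le_rfl ?_
  have h1 : ∀ᵐ z ∂(μ.prod (D.prod D)), 0 ≤ z.1 := ae_fst_prod (p := fun x => 0 ≤ x) hμ0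
  calc ∫⁻ z : ℝ × (ℝ × ℝ), ENNReal.ofReal (x * sfun β z.1 z.2 / (1 + x * sfun β z.1 z.2))
        ∂(μ.prod (D.prod D))
      ≤ ∫⁻ z : ℝ × (ℝ × ℝ), ENNReal.ofReal (2 * β * z.2.2 ^ 2) * ENNReal.ofReal x
        ∂(μ.prod (D.prod D)) := by
        refine lintegral_mono_ae ?_
        filter_upwards [h1] with z hz
        rw [← ENNReal.ofReal_mul (by positivity)]
        refine ENNReal.ofReal_le_ofReal ?_
        have h2 := sfun_nonneg hβ hz z.2
        have h3 : sfun β z.1 z.2 ≤ 2 * β * z.2.2 ^ 2 := by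
          unfold sfun
          apply div_le_self (by positivity)
          have : 0 ≤ 2 * β * z.2.1 ^ 2 * z.1 := by positivity
          linarith
        calc x * sfun β z.1 z.2 / (1 + x * sfun β z.1 z.2) ≤ x * sfun β z.1 z.2 := by
              apply div_le_self (by positivity)
              nlinarith [mul_nonneg hx h2]
          _ ≤ 2 * β * z.2.2 ^ 2 * x := by nlinarith
    _ = ENNReal.ofReal (2 * β) * (∫⁻ x, ENNReal.ofReal (x ^ 2) ∂D) * ENNReal.ofReal x := by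
        rw [lintegral_mul_const _ (by fun_prop), lintegral_prod _ (by fun_prop)]
        simp only [lint_snd_sq hβ]
        simp

lemma fix_M1' (hβ : 0 ≤ β) (hμ : IsFix l β D μ) {G : ℝ → ℝ≥0∞} (hG : Measurable G) :
    ∫⁻ x', (l : ℝ≥0∞) * ∫⁻ z : ℝ × (ℝ × ℝ),
      ENNReal.ofReal (sfun β z.1 z.2) * G (x' / (1 + x' * sfun β z.1 z.2))
      ∂(μ.prod (D.prod D)) ∂μ = ∫⁻ x, G x * ENNReal.ofReal (1 / x - 1) ∂μ := by
  have hgz : Measurable (fun p : ℝ × (ℝ × (ℝ × ℝ)) =>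
      ENNReal.ofReal (sfun β p.2.1 p.2.2) * G (p.1 / (1 + p.1 * sfun β p.2.1 p.2.2))) := by
    have h7 : Measurable (fun p : ℝ × (ℝ × (ℝ × ℝ)) => sfun β p.2.1 p.2.2) :=
      msf (by fun_prop) (by fun_prop)
    exact h7.ennreal_ofReal.mul (hG.comp (measurable_fst.div
      (measurable_const.add (measurable_fst.mul h7))))
  have hsw : Measurable (fun p : (ℝ × (ℝ × ℝ)) × ℝ =>
      ENNReal.ofReal (sfun β p.1.1 p.1.2) * G (p.2 / (1 + p.2 * sfun β p.1.1 p.1.2))) := by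
    have h7 : Measurable (fun p : (ℝ × (ℝ × ℝ)) × ℝ => sfun β p.1.1 p.1.2) :=
      msf (by fun_prop) (by fun_prop)
    exact h7.ennreal_ofReal.mul (hG.comp (measurable_snd.div
      (measurable_const.add (measurable_snd.mul h7))))
  have hin : Measurable (fun z : ℝ × (ℝ × ℝ) => ∫⁻ x', ENNReal.ofReal (sfun β z.1 z.2) *
      G (x' / (1 + x' * sfun β z.1 z.2)) ∂μ) := hsw.lintegral_prod_right'
  rw [fix_M1 hβ hμ hG, lintegral_const_mul _ hgz.lintegral_prod_right',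
    lintegral_lintegral_swap hgz.aemeasurable, lintegral_prod _ hin.aemeasurable,
    ← lintegral_const_mul _ hin.lintegral_prod_right']
  refine lintegral_congr fun y => ?_
  unfold Kop
  congr 1
  refine lintegral_congr fun e' => ?_
  rw [lintegral_const_mul' _ _ ENNReal.ofReal_ne_top]

/-- `K_B W` computed -/
lemma Kop_cB_WW (hβ : 0 ≤ β) (hμ : IsFix l β D μ) {x : ℝ} (hx : 0 ≤ x) :
    ENNReal.ofReal x + Kop l β D μ (cB β) (WW l β D μ) x = WW l β D μ x := by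
  have hpos := hμ.pos hβ
  have h0 : ∀ᵐ x ∂μ, 0 ≤ x := hpos.mono fun x hx => hx.le
  conv_rhs => unfold WW
  congr 1
  unfold Kop
  congr 1
  -- for fixed marks
  have hfix : ∀ e : ℝ × ℝ, cB β x e * ∫⁻ x', WW l β D μ (x' / (1 + x' * sfun β x e)) ∂μ =
      ∫⁻ x', ENNReal.ofReal (2 * β * e.1 ^ 2 * x /
        (1 + 2 * β * e.1 ^ 2 * x + 2 * β * e.2 ^ 2 * x')) ∂μ := by
    intro e
    set a : ℝ := 2 * β * e.1 ^ 2 * x with ha
    have ha0 : 0 ≤ a := by positivity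
    set g : ℝ → ℝ := fun x' => a * x' / (1 + a + 2 * β * e.2 ^ 2 * x') with hg
    have hgm : Measurable g := by rw [hg]; fun_prop
    have hc : cB β x e = ENNReal.ofReal (a / (1 + a)) := rfl
    have hs : sfun β x e = 2 * β * e.2 ^ 2 / (1 + a) := rfl
    -- split the integral
    have h1 : cB β x e * ∫⁻ x', WW l β D μ (x' / (1 + x' * sfun β x e)) ∂μ =
        ∫⁻ x', ENNReal.ofReal (g x') ∂μ + ∫⁻ x', (l : ℝ≥0∞) * ∫⁻ z : ℝ × (ℝ × ℝ),
          ENNReal.ofReal (sfun β z.1 z.2) * ENNReal.ofReal (g (x' / (1 + x' * sfun β z.1 z.2)))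
          ∂(μ.prod (D.prod D)) ∂μ := by
      have hcne : cB β x e ≠ ∞ := by rw [hc]; exact ENNReal.ofReal_ne_top
      rw [← lintegral_const_mul' _ _ hcne,
        ← lintegral_add_left hgm.ennreal_ofReal]
      refine lintegral_congr_ae ?_
      filter_upwards [h0] with x' hx'
      unfold WW
      rw [mul_add]
      congr 1
      · rw [hc, ← ENNReal.ofReal_mul (by positivity), hs, hg]
        congr 1
        have h2 : 0 < 1 + x' * (2 * β * e.2 ^ 2 / (1 + a)) := by positivity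
        have h3 : 0 < 1 + a + 2 * β * e.2 ^ 2 * x' := by positivity
        field_simp
      · rw [← mul_assoc, mul_comm (cB β x e), mul_assoc]
        congr 1
        rw [← lintegral_const_mul' _ _ hcne]
        refine lintegral_congr_ae ?_
        have h1 : ∀ᵐ z ∂(μ.prod (D.prod D)), 0 ≤ z.1 :=
          ae_fst_prod (p := fun x => 0 ≤ x) h0
        filter_upwards [h1] with z hz
        have hz0 := sfun_nonneg hβ hz z.2
        rw [hc, ← ENNReal.ofReal_mul (by positivity), ← ENNReal.ofReal_mul hz0, hs, hg]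
        congr 1
        generalize sfun β z.1 z.2 = t at hz0
        simp only
        have h2 : 0 < 1 + x' * (2 * β * e.2 ^ 2 / (1 + a)) := by positivity
        have h4 : 0 < 1 + x' * t := by positivity
        have h5 : 0 < 1 + a + 2 * β * e.2 ^ 2 * (x' / (1 + x' * t)) := by positivity
        have h6 : 0 < 1 + x' / (1 + x' * (2 * β * e.2 ^ 2 / (1 + a))) * t := by positivity
        field_simp
        ring
    rw [h1]
    have h2 := fix_M1' hβ hμ (G := fun x' => ENNReal.ofReal (g x')) hgm.ennreal_ofReal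
    rw [h2, ← lintegral_add_left hgm.ennreal_ofReal]
    refine lintegral_congr_ae ?_
    filter_upwards [hpos, hμ.mem] with x' hx' hx1
    have h8 : 0 ≤ 1 / x' - 1 := by
      rw [sub_nonneg, le_div_iff₀ hx']; linarith [hx1.2]
    have hg0 : 0 ≤ g x' := by rw [hg]; positivity
    rw [← ENNReal.ofReal_mul hg0, ← ENNReal.ofReal_add hg0 (by positivity)]
    congr 1
    rw [hg]
    have h3 : 0 < 1 + a + 2 * β * e.2 ^ 2 * x' := by positivity
    field_simp
    ring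
  simp only [hfix]
  -- swap of the two marks
  have hswD : MeasurePreserving Prod.swap (D.prod D) (D.prod D) := Measure.measurePreserving_swap
  have hm : Measurable (fun e : ℝ × ℝ => ∫⁻ x', ENNReal.ofReal (2 * β * e.1 ^ 2 * x /
        (1 + 2 * β * e.1 ^ 2 * x + 2 * β * e.2 ^ 2 * x')) ∂μ) := by
    refine Measurable.lintegral_prod_right' (f := fun p : (ℝ × ℝ) × ℝ =>
      ENNReal.ofReal (2 * β * p.1.1 ^ 2 * x /
        (1 + 2 * β * p.1.1 ^ 2 * x + 2 * β * p.1.2 ^ 2 * p.2))) ?_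
    fun_prop
  rw [← hswD.lintegral_comp hm]
  have hWm : Measurable (fun z : ℝ × (ℝ × ℝ) =>
      ENNReal.ofReal (x * sfun β z.1 z.2 / (1 + x * sfun β z.1 z.2))) :=
    measurable_WWg measurable_const (by fun_prop) (by fun_prop)
  rw [lintegral_prod_symm' _ hWm]
  refine lintegral_congr fun e => ?_
  refine lintegral_congr_ae ?_
  filter_upwards [h0] with x' hx'
  congr 1
  simp only [Prod.fst_swap, Prod.snd_swap]
  unfold sfun
  have h2 : 0 < 1 + 2 * β * e.1 ^ 2 * x' := by positivity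
  have h3 : 0 < 1 + 2 * β * e.2 ^ 2 * x + 2 * β * e.1 ^ 2 * x' := by positivity
  have h4 : 0 < 1 + x * (2 * β * e.2 ^ 2 / (1 + 2 * β * e.1 ^ 2 * x')) := by positivity
  field_simp
  ring

end Pool.Agent.Q287.JR
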