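import Pool.Agent.Q287.JR.JR6

open MeasureTheory ProbabilityTheory Set Filter
open scoped ENNReal NNReal Topology

set_option linter.unusedSectionVars false

namespace Pool.Agent.Q287.JR

variable {l : ℝ≥0} {β : ℝ} {D : Measure ℝ} [IsProbabilityMeasure D]
variable {μ : Measure ℝ} [IsProbabilityMeasure μ]

lemma kap_ne_top (hD : ∫⁻ x, ENNReal.ofReal (x ^ 2) ∂D ≠ ∞) : kap l β D ≠ ∞ := by
  unfold kap
  exact ENNReal.mul_ne_top ENNReal.coe_ne_top (ENNReal.mul_ne_top ENNReal.ofReal_ne_top hD)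

/-- contraction factor -/
noncomputable def rh (l : ℝ≥0) (β : ℝ) (D : Measure ℝ) : ℝ≥0∞ := kap l β D / (1 + kap l β D)

lemma Kop_cB_le (hβ : 0 ≤ β) (hD : ∫⁻ x, ENNReal.ofReal (x ^ 2) ∂D ≠ ∞) (hμ : IsFix l β D μ)
    {x : ℝ} (hx : 0 ≤ x) :
    Kop l β D μ (cB β) (WW l β D μ) x ≤ rh l β D * WW l β D μ x := by
  have h0 : ∀ᵐ x ∂μ, 0 ≤ x := (hμ.pos hβ).mono fun x hx => hx.le
  have h1 := Kop_cB_WW hβ hμ hx
  have h2 := WW_le (l := l) (D := D) hβ h0 hx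
  have hk := kap_ne_top (l := l) (β := β) hD
  set κ := kap l β D with hκ
  set W := WW l β D μ x with hW
  set K := Kop l β D μ (cB β) (WW l β D μ) x with hK
  have hWne : W ≠ ∞ := by
    refine ne_of_lt (lt_of_le_of_lt h2 ?_)
    exact ENNReal.mul_lt_top (ENNReal.add_lt_top.2 ⟨by simp, hk.lt_top⟩) ENNReal.ofReal_lt_top
  have h3 : W + (1 + κ) * K ≤ W + κ * W := by
    calc W + (1 + κ) * K ≤ (1 + κ) * ENNReal.ofReal x + (1 + κ) * K := by gcongr
      _ = (1 + κ) * (ENNReal.ofReal x + K) := by ring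
      _ = (1 + κ) * W := by rw [h1]
      _ = W + κ * W := by ring
  have h4 : (1 + κ) * K ≤ κ * W := (ENNReal.add_le_add_iff_left hWne).1 h3
  unfold rh
  rw [← hκ, ENNReal.div_eq_inv_mul, mul_assoc]
  calc K = (1 + κ)⁻¹ * ((1 + κ) * K) := by
        rw [← mul_assoc, ENNReal.inv_mul_cancel (by simp) (by simp [hk]), one_mul]
    _ ≤ (1 + κ)⁻¹ * (κ * W) := by gcongr

lemma rh_lt_one (hD : ∫⁻ x, ENNReal.ofReal (x ^ 2) ∂D ≠ ∞) : rh l β D < 1 := by
  have hk := kap_ne_top (l := l) (β := β) hD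
  unfold rh
  rw [ENNReal.div_lt_iff (by simp) (by simp [hk]), one_mul]
  rw [add_comm]
  exact ENNReal.lt_add_right hk one_ne_zero

lemma It_cB_le (hβ : 0 ≤ β) (hD : ∫⁻ x, ENNReal.ofReal (x ^ 2) ∂D ≠ ∞) (hμ : IsFix l β D μ) :
    ∀ (n : ℕ) {x : ℝ}, 0 ≤ x →
    It l β D μ (cB β) n x ≤ rh l β D ^ n * WW l β D μ x
  | 0, x, hx => by
    rw [pow_zero, one_mul]
    show ENNReal.ofReal x ≤ WW l β D μ x
    unfold WW
    exact le_self_add
  | n + 1, x, hx => by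
    have h0 : ∀ᵐ x ∂μ, 0 ≤ x := (hμ.pos hβ).mono fun x hx => hx.le
    have hr : rh l β D ^ n ≠ ∞ := ENNReal.pow_ne_top (rh_lt_one hD).ne_top
    calc It l β D μ (cB β) (n + 1) x
        = Kop l β D μ (cB β) (It l β D μ (cB β) n) x := rfl
      _ ≤ Kop l β D μ (cB β) (fun y => rh l β D ^ n * WW l β D μ y) x :=
          Kop_mono hβ h0 (fun y hy => It_cB_le hβ hD hμ n hy) hx
      _ = rh l β D ^ n * Kop l β D μ (cB β) (WW l β D μ) x := Kop_const_mul hr x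
      _ ≤ rh l β D ^ n * (rh l β D * WW l β D μ x) := by
          gcongr; exact Kop_cB_le hβ hD hμ hx
      _ = rh l β D ^ (n + 1) * WW l β D μ x := by ring

/-! ### (iii) arithmetic–geometric mean comparison -/

lemma AG_step (hβ : 0 ≤ β) (hμ0 : ∀ᵐ x ∂μ, 0 ≤ x) {w wA wB : ℝ → ℝ≥0∞}
    (hA : Measurable wA) (hB : Measurable wB)
    (h : ∀ x, 0 ≤ x → ∀ t : ℝ, 0 < t →
      2 * w x ≤ ENNReal.ofReal t * wA x + ENNReal.ofReal (1 / t) * wB x)
    {x : ℝ} (hx : 0 ≤ x) {t : ℝ} (ht : 0 < t) :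
    2 * Kop l β D μ (c1 β) w x ≤ ENNReal.ofReal t * Kop l β D μ (cA β) wA x +
      ENNReal.ofReal (1 / t) * Kop l β D μ (cB β) wB x := by
  have hIA : Measurable (fun e : ℝ × ℝ => ∫⁻ x', wA (x' / (1 + x' * sfun β x e)) ∂μ) :=
    measurable_inner2 hA measurable_const measurable_id
  have hIB : Measurable (fun e : ℝ × ℝ => ∫⁻ x', wB (x' / (1 + x' * sfun β x e)) ∂μ) :=
    measurable_inner2 hB measurable_const measurable_id
  have hcA : Measurable (fun e : ℝ × ℝ => cA β x e) := by unfold cA; fun_prop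
  have hcB : Measurable (fun e : ℝ × ℝ => cB β x e) := by unfold cB; fun_prop
  have hAm : Measurable (fun e : ℝ × ℝ => ENNReal.ofReal t *
      (cA β x e * ∫⁻ x', wA (x' / (1 + x' * sfun β x e)) ∂μ)) := (hcA.mul hIA).const_mul _
  unfold Kop
  have e1 : 2 * ((l : ℝ≥0∞) * ∫⁻ e, c1 β x e * ∫⁻ x', w (x' / (1 + x' * sfun β x e)) ∂μ
      ∂(D.prod D)) = l * ∫⁻ e, 2 * (c1 β x e * ∫⁻ x', w (x' / (1 + x' * sfun β x e)) ∂μ)
      ∂(D.prod D) := by
    rw [lintegral_const_mul' _ _ (by norm_num)]; ring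
  have e2 : ENNReal.ofReal t * ((l : ℝ≥0∞) * ∫⁻ e, cA β x e *
        ∫⁻ x', wA (x' / (1 + x' * sfun β x e)) ∂μ ∂(D.prod D)) +
      ENNReal.ofReal (1 / t) * ((l : ℝ≥0∞) * ∫⁻ e, cB β x e *
        ∫⁻ x', wB (x' / (1 + x' * sfun β x e)) ∂μ ∂(D.prod D)) =
      l * ∫⁻ e, (ENNReal.ofReal t * (cA β x e * ∫⁻ x', wA (x' / (1 + x' * sfun β x e)) ∂μ) +
        ENNReal.ofReal (1 / t) * (cB β x e * ∫⁻ x', wB (x' / (1 + x' * sfun β x e)) ∂μ))
        ∂(D.prod D) := by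
    rw [lintegral_add_left hAm, lintegral_const_mul' _ _ ENNReal.ofReal_ne_top,
      lintegral_const_mul' _ _ ENNReal.ofReal_ne_top]
    ring
  rw [e1, e2]
  refine mul_le_mul' le_rfl (lintegral_mono fun e => ?_)
  beta_reduce
  by_cases hz : e.1 = 0 ∨ e.2 = 0
  · have : c1 β x e = 0 := by
      unfold c1
      rcases hz with hz | hz <;> simp [hz]
    rw [this]
    simp
  push Not at hz
  obtain ⟨hz1, hz2⟩ := hz
  have hp1 : 0 < |e.1| := abs_pos.2 hz1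
  have hp2 : 0 < |e.2| := abs_pos.2 hz2
  set t' : ℝ := t * |e.2| / |e.1| with ht'
  have ht'0 : 0 < t' := by positivity
  have hin : 2 * ∫⁻ x', w (x' / (1 + x' * sfun β x e)) ∂μ ≤
      ENNReal.ofReal t' * ∫⁻ x', wA (x' / (1 + x' * sfun β x e)) ∂μ +
      ENNReal.ofReal (1 / t') * ∫⁻ x', wB (x' / (1 + x' * sfun β x e)) ∂μ := by
    have hmA : Measurable (fun x' : ℝ => ENNReal.ofReal t' *
        wA (x' / (1 + x' * sfun β x e))) := (hA.comp (by fun_prop)).const_mul _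
    rw [← lintegral_const_mul' _ _ (by norm_num), ← lintegral_const_mul' _ _ ENNReal.ofReal_ne_top,
      ← lintegral_const_mul' _ _ ENNReal.ofReal_ne_top, ← lintegral_add_left hmA]
    refine lintegral_mono_ae ?_
    filter_upwards [hμ0] with x' hx'
    exact h _ (child_nonneg hβ hx hx' e) t' ht'0
  have hden : 0 < 1 + 2 * β * e.1 ^ 2 * x := by positivity
  have eA : c1 β x e * ENNReal.ofReal t' = ENNReal.ofReal t * cA β x e := by
    unfold c1 cA
    rw [← ENNReal.ofReal_mul (by positivity), ← ENNReal.ofReal_mul (by positivity)]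
    congr 1
    rw [ht', ← sq_abs e.2]
    field_simp
  have eB : c1 β x e * ENNReal.ofReal (1 / t') = ENNReal.ofReal (1 / t) * cB β x e := by
    unfold c1 cB
    rw [← ENNReal.ofReal_mul (by positivity), ← ENNReal.ofReal_mul (by positivity)]
    congr 1
    rw [ht', ← sq_abs e.1]
    field_simp
  calc 2 * (c1 β x e * ∫⁻ x', w (x' / (1 + x' * sfun β x e)) ∂μ)
      = c1 β x e * (2 * ∫⁻ x', w (x' / (1 + x' * sfun β x e)) ∂μ) := by ring
    _ ≤ c1 β x e * (ENNReal.ofReal t' * ∫⁻ x', wA (x' / (1 + x' * sfun β x e)) ∂μ +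
        ENNReal.ofReal (1 / t') * ∫⁻ x', wB (x' / (1 + x' * sfun β x e)) ∂μ) :=
        mul_le_mul' le_rfl hin
    _ = (c1 β x e * ENNReal.ofReal t') * ∫⁻ x', wA (x' / (1 + x' * sfun β x e)) ∂μ +
        (c1 β x e * ENNReal.ofReal (1 / t')) * ∫⁻ x', wB (x' / (1 + x' * sfun β x e)) ∂μ := by
        ring
    _ = _ := by rw [eA, eB]; ring

lemma AG_It (hβ : 0 ≤ β) (hμ0 : ∀ᵐ x ∂μ, 0 ≤ x) : ∀ (n : ℕ) (x : ℝ), 0 ≤ x → ∀ t : ℝ, 0 < t →
    2 * It l β D μ (c1 β) n x ≤ ENNReal.ofReal t * It l β D μ (cA β) n x +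
      ENNReal.ofReal (1 / t) * It l β D μ (cB β) n x
  | 0, x, hx, t, ht => by
    show 2 * ENNReal.ofReal x ≤ ENNReal.ofReal t * ENNReal.ofReal x +
      ENNReal.ofReal (1 / t) * ENNReal.ofReal x
    have h2 : (2 : ℝ≥0∞) = ENNReal.ofReal 2 := by norm_num
    rw [h2, ← add_mul, ← ENNReal.ofReal_add (by positivity) (by positivity)]
    gcongr
    have : t + 1 / t - 2 = (t - 1) ^ 2 / t := by field_simp; ring
    have h3 : 0 ≤ (t - 1) ^ 2 / t := by positivity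
    linarith
  | n + 1, x, hx, t, ht =>
    AG_step hβ hμ0 (measurable_It measurable_cA n) (measurable_It measurable_cB n)
      (AG_It hβ hμ0 n) hx ht

theorem It_c1_bound (hβ : 0 ≤ β) (hD : ∫⁻ x, ENNReal.ofReal (x ^ 2) ∂D ≠ ∞) :
    ∃ θ : ℝ, 0 < θ ∧ θ < 1 ∧ ∀ (μ : Measure ℝ) [IsProbabilityMeasure μ], IsFix l β D μ →
      ∀ (n : ℕ) (x : ℝ), 0 ≤ x →
      It l β D μ (c1 β) n x ≤ (1 + kap l β D) * ENNReal.ofReal (θ ^ n) * ENNReal.ofReal x := by
  have hr := rh_lt_one (l := l) (β := β) hD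
  set r := (rh l β D).toReal with hrdef
  have hr1 : r < 1 := by
    rw [hrdef, ← ENNReal.toReal_one]
    exact ENNReal.toReal_strict_mono (by simp) hr
  have hr0 : 0 ≤ r := ENNReal.toReal_nonneg
  set θ := Real.sqrt ((r + 1) / 2) with hθ
  have hθ0 : 0 < θ := Real.sqrt_pos.2 (by linarith)
  have hθsq : θ ^ 2 = (r + 1) / 2 := Real.sq_sqrt (by linarith)
  have hθ1 : θ < 1 := by
    nlinarith
  have hrle : rh l β D ≤ ENNReal.ofReal (θ ^ 2) := by
    rw [← ENNReal.ofReal_toReal hr.ne_top]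
    refine ENNReal.ofReal_le_ofReal ?_
    rw [hθsq, ← hrdef]; linarith
  refine ⟨θ, hθ0, hθ1, fun μ _ hμ n x hx => ?_⟩
  have h0 : ∀ᵐ x ∂μ, 0 ≤ x := (hμ.pos hβ).mono fun x hx => hx.le
  have hAG := AG_It (l := l) (D := D) hβ h0 n x hx (θ ^ n) (by positivity)
  have hA := It_cA_bound hβ hμ n hx
  have hB := It_cB_le hβ hD hμ n hx
  have hW := WW_le (l := l) (D := D) hβ h0 hx
  set κ := kap l β D with hκ
  have hB2 : It l β D μ (cB β) n x ≤ ENNReal.ofReal (θ ^ n * θ ^ n) *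
      ((1 + κ) * ENNReal.ofReal x) := by
    refine hB.trans ?_
    gcongr
    calc rh l β D ^ n ≤ (ENNReal.ofReal (θ ^ 2)) ^ n := by gcongr
      _ = ENNReal.ofReal (θ ^ n * θ ^ n) := by
          rw [← ENNReal.ofReal_pow (by positivity)]
          congr 1; ring
  have h2 : 2 * It l β D μ (c1 β) n x ≤ 2 * ((1 + κ) * ENNReal.ofReal (θ ^ n) *
      ENNReal.ofReal x) := by
    calc 2 * It l β D μ (c1 β) n x
        ≤ ENNReal.ofReal (θ ^ n) * It l β D μ (cA β) n x +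
          ENNReal.ofReal (1 / θ ^ n) * It l β D μ (cB β) n x := hAG
      _ ≤ ENNReal.ofReal (θ ^ n) * ((1 + κ) * ENNReal.ofReal x) +
          ENNReal.ofReal (1 / θ ^ n) * (ENNReal.ofReal (θ ^ n * θ ^ n) *
          ((1 + κ) * ENNReal.ofReal x)) := by gcongr
      _ = 2 * ((1 + κ) * ENNReal.ofReal (θ ^ n) * ENNReal.ofReal x) := by
          rw [← mul_assoc (ENNReal.ofReal (1 / θ ^ n)), ← ENNReal.ofReal_mul (by positivity)]
          have : 1 / θ ^ n * (θ ^ n * θ ^ n) = θ ^ n := by field_simp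
          rw [this]; ring
  exact (ENNReal.mul_le_mul_iff_right (by norm_num) (by norm_num)).1 h2

end Pool.Agent.Q287.JR
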