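import Pool.Agent.Q287.JR.JR7

open MeasureTheory ProbabilityTheory Set Filter
open scoped ENNReal NNReal Topology

set_option linter.unusedSectionVars false

namespace Pool.Agent.Q287.JR

/-- the recursion function, literally as in the problem: `q.1 = R`, `(q.2 k).1 = (U_k, X_k)` and
`(q.2 k).2 = (ξ_k, ζ_k)` -/
noncomputable def PhiFun (β : ℝ) (q : ℕ × (ℕ → (ℝ × ℝ) × (ℝ × ℝ))) : ℝ × ℝ :=
  (1 - 2 * β * ∑ k ∈ Finset.range q.1,
      (q.2 k).2.1 * (q.2 k).2.2 * (q.2 k).1.1 * (q.2 k).1.2 /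
        (1 + 2 * β * (q.2 k).2.1 ^ 2 * (q.2 k).1.2),
   1 / (1 + 2 * β * ∑ k ∈ Finset.range q.1,
      (q.2 k).2.2 ^ 2 / (1 + 2 * β * (q.2 k).2.1 ^ 2 * (q.2 k).1.2)))

/-- signed weight -/
noncomputable def aA (β x : ℝ) (e : ℝ × ℝ) : ℝ := 2 * β * e.1 * e.2 * x / (1 + 2 * β * e.1 ^ 2 * x)

lemma measurable_aA {β : ℝ} {α' : Type*} [MeasurableSpace α'] {g1 : α' → ℝ} {g2 : α' → ℝ × ℝ}
    (h1 : Measurable g1) (h2 : Measurable g2) : Measurable (fun z => aA β (g1 z) (g2 z)) := by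
  unfold aA
  exact (((measurable_const.mul (h2.fst)).mul h2.snd).mul h1).div
    (measurable_const.add ((measurable_const.mul (h2.fst.pow_const 2)).mul h1))

lemma PhiFun_eq (β : ℝ) (q : ℕ × (ℕ → (ℝ × ℝ) × (ℝ × ℝ))) :
    PhiFun β q = (1 - rs (fun z => aA β z.1.2 z.2 * z.1.1) q,
      1 / (1 + rs (fun z => sfun β z.1.2 z.2) q)) := by
  unfold PhiFun rs
  refine Prod.ext ?_ ?_
  · simp only
    rw [Finset.mul_sum]
    congr 1
    refine Finset.sum_congr rfl fun k _ => ?_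
    unfold aA
    ring
  · simp only
    rw [Finset.mul_sum]
    congr 2
    refine Finset.sum_congr rfl fun k _ => ?_
    unfold sfun
    ring

variable {l : ℝ≥0} {β : ℝ} {D : Measure ℝ} [IsProbabilityMeasure D]
variable {μ : Measure ℝ} [IsProbabilityMeasure μ]

lemma measurable_PhiFun : Measurable (PhiFun β) := by
  have h : PhiFun β = fun q => (1 - rs (fun z : (ℝ × ℝ) × (ℝ × ℝ) => aA β z.1.2 z.2 * z.1.1) q,
      1 / (1 + rs (fun z : (ℝ × ℝ) × (ℝ × ℝ) => sfun β z.1.2 z.2) q)) := funext (PhiFun_eq β)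
  rw [h]
  have h1 : Measurable (fun z : (ℝ × ℝ) × (ℝ × ℝ) => aA β z.1.2 z.2 * z.1.1) :=
    (measurable_aA (by fun_prop) (by fun_prop)).mul (by fun_prop)
  have h2 : Measurable (fun z : (ℝ × ℝ) × (ℝ × ℝ) => sfun β z.1.2 z.2) :=
    msf (by fun_prop) (by fun_prop)
  exact (measurable_const.sub (measurable_rs h1)).prodMk
    (measurable_const.div (measurable_const.add (measurable_rs h2)))

section Hom

variable {S : Type*} [MeasurableSpace S] {γ : Measure S} [IsProbabilityMeasure γ] {X : S → ℝ}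

lemma enorm_rs_le (s : S → ℝ) (q : ℕ × (ℕ → S)) : ‖rs s q‖ₑ ≤ rse (fun y => ‖s y‖ₑ) q := by
  unfold rs rse
  exact enorm_sum_le _ _

lemma enorm_aA (hβ : 0 ≤ β) {x : ℝ} (hx : 0 ≤ x) (e : ℝ × ℝ) : ‖aA β x e‖ₑ = c1 β x e := by
  unfold c1
  rw [Real.enorm_eq_ofReal_abs]
  congr 1
  unfold aA
  rw [abs_div, abs_mul, abs_mul, abs_mul, abs_mul, abs_of_nonneg hβ, abs_of_nonneg hx,
    abs_of_nonneg (show (0 : ℝ) ≤ 1 + 2 * β * e.1 ^ 2 * x by positivity)]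
  norm_num

lemma hom_bound (hβ : 0 ≤ β) (hμ : IsFix l β D μ) (hX : Measurable X) (hXμ : γ.map X = μ)
    {Δ : S → ℝ} (hΔ : Measurable Δ) {w : ℝ → ℝ≥0∞} (hw : Measurable w) :
    ∫⁻ q, w (1 / (1 + rs (fun z : S × (ℝ × ℝ) => sfun β (X z.1) z.2) q)) *
      ‖rs (fun z : S × (ℝ × ℝ) => aA β (X z.1) z.2 * Δ z.1) q‖ₑ ∂(Gen l (γ.prod (D.prod D))) ≤
    ∫⁻ y, ‖Δ y‖ₑ * Kop l β D μ (c1 β) w (X y) ∂γ := by
  rw [← oneStep hβ hμ hX hXμ measurable_c1 hΔ.enorm hw]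
  have h1 : ∀ᵐ z ∂(γ.prod (D.prod D)), X z.1 ∈ Icc (0 : ℝ) 1 :=
    ae_fst_prod (p := fun y => X y ∈ Icc (0 : ℝ) 1) (ae_X_mem hμ hX hXμ)
  refine lintegral_mono_ae ?_
  filter_upwards [ae_Gen l (γ.prod (D.prod D)) h1] with q hq
  refine mul_le_mul' le_rfl ((enorm_rs_le _ q).trans ?_)
  unfold rse
  refine Finset.sum_le_sum fun k _ => ?_
  beta_reduce
  rw [enorm_mul, enorm_aA hβ (hq k).1]

lemma Kop_one_le (hβ : 0 ≤ β) {x : ℝ} (hx : 0 ≤ x) :
    Kop l β D μ (c1 β) (fun _ => 1) x ≤ kap l β D * ENNReal.ofReal x := by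
  unfold Kop kap
  simp only [lintegral_const, measure_univ, mul_one]
  rw [mul_assoc]
  refine mul_le_mul' le_rfl ?_
  have h1 : ∀ e : ℝ × ℝ, c1 β x e ≤ (ENNReal.ofReal (2 * β * e.1 ^ 2) +
      ENNReal.ofReal (2 * β * e.2 ^ 2)) * (ENNReal.ofReal (1 / 2) * ENNReal.ofReal x) := by
    intro e
    unfold c1
    rw [← ENNReal.ofReal_add (by positivity) (by positivity),
      ← ENNReal.ofReal_mul (by positivity), ← ENNReal.ofReal_mul (by positivity)]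
    refine ENNReal.ofReal_le_ofReal ?_
    calc 2 * β * |e.1| * |e.2| * x / (1 + 2 * β * e.1 ^ 2 * x) ≤ 2 * β * |e.1| * |e.2| * x := by
          apply div_le_self (by positivity)
          have : 0 ≤ 2 * β * e.1 ^ 2 * x := by positivity
          linarith
      _ ≤ (2 * β * e.1 ^ 2 + 2 * β * e.2 ^ 2) * (1 / 2 * x) := by
          have h2 : 2 * (|e.1| * |e.2|) ≤ e.1 ^ 2 + e.2 ^ 2 := by
            nlinarith [sq_nonneg (|e.1| - |e.2|), sq_abs e.1, sq_abs e.2]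
          have h3 : 0 ≤ β * x := mul_nonneg hβ hx
          nlinarith [mul_le_mul_of_nonneg_left h2 h3]
  calc ∫⁻ e, c1 β x e ∂(D.prod D)
      ≤ ∫⁻ e : ℝ × ℝ, (ENNReal.ofReal (2 * β * e.1 ^ 2) +
      ENNReal.ofReal (2 * β * e.2 ^ 2)) * (ENNReal.ofReal (1 / 2) * ENNReal.ofReal x)
        ∂(D.prod D) := lintegral_mono h1
    _ = ENNReal.ofReal (2 * β) * (∫⁻ x, ENNReal.ofReal (x ^ 2) ∂D) * ENNReal.ofReal x := by
        rw [lintegral_mul_const _ (by fun_prop), lintegral_add_left (by fun_prop),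
          lint_snd_sq hβ, lint_fst_sq hβ, ← two_mul]
        have h2 : (2 : ℝ≥0∞) * ENNReal.ofReal (1 / 2) = 1 := by
          have : (2 : ℝ≥0∞) = ENNReal.ofReal 2 := by norm_num
          rw [this, ← ENNReal.ofReal_mul (by norm_num)]
          norm_num
        calc _ = (2 * ENNReal.ofReal (1 / 2)) * (ENNReal.ofReal (2 * β) *
              (∫⁻ x, ENNReal.ofReal (x ^ 2) ∂D) * ENNReal.ofReal x) := by ring
          _ = _ := by rw [h2, one_mul]

end Hom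

end Pool.Agent.Q287.JR
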