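import Pool.Agent.Q287.JR.JR8

open MeasureTheory ProbabilityTheory Set Filter
open scoped ENNReal NNReal Topology

set_option linter.unusedSectionVars false

namespace Pool.Agent.Q287.JR

/-- the map `Φ` on laws, in terms of `l = 2α` -/
noncomputable def PhiL (l : ℝ≥0) (β : ℝ) (D : Measure ℝ) (π : Measure (ℝ × ℝ)) :
    Measure (ℝ × ℝ) :=
  (Gen l (π.prod (D.prod D))).map (PhiFun β)

variable {l : ℝ≥0} {β : ℝ} {D : Measure ℝ} [IsProbabilityMeasure D]

instance (π : Measure (ℝ × ℝ)) [IsProbabilityMeasure π] : IsProbabilityMeasure (PhiL l β D π) := by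
  unfold PhiL
  exact Measure.isProbabilityMeasure_map measurable_PhiFun.aemeasurable

/-- componentwise map on families -/
def mp {S S' : Type*} (g : S → S') (q : ℕ × (ℕ → S × (ℝ × ℝ))) : ℕ × (ℕ → S' × (ℝ × ℝ)) :=
  (q.1, fun n => (g (q.2 n).1, (q.2 n).2))

lemma Gen_mp {S S' : Type*} [MeasurableSpace S] [MeasurableSpace S'] {g : S → S'}
    (hg : Measurable g) (γ : Measure S) [IsProbabilityMeasure γ] :
    (Gen l (γ.prod (D.prod D))).map (mp g) = Gen l ((γ.map g).prod (D.prod D)) := by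
  have hgz : Measurable (fun z : S × (ℝ × ℝ) => (g z.1, z.2)) := by fun_prop
  have h1 : (γ.map g).prod (D.prod D) = (γ.prod (D.prod D)).map
      (fun z : S × (ℝ × ℝ) => (g z.1, z.2)) := by
    have : (fun z : S × (ℝ × ℝ) => (g z.1, z.2)) = Prod.map g id := rfl
    rw [this, ← Measure.map_prod_map _ _ hg measurable_id, Measure.map_id]
  rw [h1, ← Gen_map l _ hgz]
  rfl

lemma measurable_mp {S S' : Type*} [MeasurableSpace S] [MeasurableSpace S'] {g : S → S'}
    (hg : Measurable g) : Measurable (mp g) := by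
  unfold mp
  refine Measurable.prodMk measurable_fst ?_
  refine measurable_pi_lambda _ fun n => ?_
  have hgz : Measurable (fun z : S × (ℝ × ℝ) => (g z.1, z.2)) := by fun_prop
  exact hgz.comp ((measurable_pi_apply n).comp measurable_snd)

lemma PhiL_snd (π : Measure (ℝ × ℝ)) [IsProbabilityMeasure π] :
    (PhiL l β D π).map Prod.snd = TX l β D (π.map Prod.snd) := by
  unfold PhiL TX
  rw [Measure.map_map measurable_snd measurable_PhiFun, ← Gen_mp measurable_snd,
    Measure.map_map (measurable_TXfun β) (measurable_mp measurable_snd)]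
  congr 1
  funext q
  simp only [Function.comp_apply, PhiFun_eq]
  rfl

lemma isFix_snd {π : Measure (ℝ × ℝ)} [IsProbabilityMeasure π] (hfix : PhiL l β D π = π)
    (hmem : ∀ᵐ p ∂π, p.2 ∈ Icc (0 : ℝ) 1) : IsFix l β D (π.map Prod.snd) := by
  constructor
  · rw [← PhiL_snd, hfix]
  · exact (ae_map_iff (p := fun x => x ∈ Icc (0 : ℝ) 1) measurable_snd.aemeasurable
      measurableSet_Icc).2 hmem

/-- coupled recursion; state `(x, (u, u'))` -/
noncomputable def F3 (β : ℝ) (q : ℕ × (ℕ → (ℝ × (ℝ × ℝ)) × (ℝ × ℝ))) : ℝ × (ℝ × ℝ) :=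
  (1 / (1 + rs (fun z => sfun β z.1.1 z.2) q),
    (1 - rs (fun z => aA β z.1.1 z.2 * z.1.2.1) q, 1 - rs (fun z => aA β z.1.1 z.2 * z.1.2.2) q))

lemma measurable_F3 : Measurable (F3 β) := by
  unfold F3
  have h0 : Measurable (fun z : (ℝ × (ℝ × ℝ)) × (ℝ × ℝ) => sfun β z.1.1 z.2) :=
    msf (by fun_prop) (by fun_prop)
  have h1 : Measurable (fun z : (ℝ × (ℝ × ℝ)) × (ℝ × ℝ) => aA β z.1.1 z.2 * z.1.2.1) :=
    (measurable_aA (by fun_prop) (by fun_prop)).mul (by fun_prop)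
  have h2 : Measurable (fun z : (ℝ × (ℝ × ℝ)) × (ℝ × ℝ) => aA β z.1.1 z.2 * z.1.2.2) :=
    (measurable_aA (by fun_prop) (by fun_prop)).mul (by fun_prop)
  exact (measurable_const.div (measurable_const.add (measurable_rs h0))).prodMk
    ((measurable_const.sub (measurable_rs h1)).prodMk (measurable_const.sub (measurable_rs h2)))

/-- the chain of couplings -/
noncomputable def Gam (l : ℝ≥0) (β : ℝ) (D : Measure ℝ) (Γ : Measure (ℝ × (ℝ × ℝ))) :
    ℕ → Measure (ℝ × (ℝ × ℝ))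
  | 0 => Γ
  | n + 1 => (Gen l ((Gam l β D Γ n).prod (D.prod D))).map (F3 β)

lemma Gam_prob (Γ : Measure (ℝ × (ℝ × ℝ))) [IsProbabilityMeasure Γ] :
    ∀ n, IsProbabilityMeasure (Gam l β D Γ n)
  | 0 => by show IsProbabilityMeasure Γ; infer_instance
  | n + 1 => by
    have := Gam_prob Γ n
    show IsProbabilityMeasure ((Gen l ((Gam l β D Γ n).prod (D.prod D))).map (F3 β))
    exact Measure.isProbabilityMeasure_map measurable_F3.aemeasurable

/-- first marginal -/
def pr1 (y : ℝ × (ℝ × ℝ)) : ℝ × ℝ := (y.2.1, y.1)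
/-- second marginal -/
def pr2 (y : ℝ × (ℝ × ℝ)) : ℝ × ℝ := (y.2.2, y.1)

lemma measurable_pr1 : Measurable pr1 := by unfold pr1; fun_prop
lemma measurable_pr2 : Measurable pr2 := by unfold pr2; fun_prop

lemma Gam_pr1 {π : Measure (ℝ × ℝ)} (hfix : PhiL l β D π = π)
    (Γ : Measure (ℝ × (ℝ × ℝ))) [IsProbabilityMeasure Γ] (h : Γ.map pr1 = π) :
    ∀ n, (Gam l β D Γ n).map pr1 = π
  | 0 => h
  | n + 1 => by
    have hp : IsProbabilityMeasure (Gam l β D Γ n) := Gam_prob Γ n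
    show ((Gen l ((Gam l β D Γ n).prod (D.prod D))).map (F3 β)).map pr1 = π
    rw [Measure.map_map measurable_pr1 measurable_F3]
    conv_rhs => rw [← hfix, ← Gam_pr1 hfix Γ h n]
    unfold PhiL
    rw [← Gen_mp measurable_pr1, Measure.map_map measurable_PhiFun (measurable_mp measurable_pr1)]
    congr 1
    funext q
    simp only [Function.comp_apply, PhiFun_eq]
    rfl

lemma Gam_pr2 {π : Measure (ℝ × ℝ)} (hfix : PhiL l β D π = π)
    (Γ : Measure (ℝ × (ℝ × ℝ))) [IsProbabilityMeasure Γ] (h : Γ.map pr2 = π) :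
    ∀ n, (Gam l β D Γ n).map pr2 = π
  | 0 => h
  | n + 1 => by
    have hp : IsProbabilityMeasure (Gam l β D Γ n) := Gam_prob Γ n
    show ((Gen l ((Gam l β D Γ n).prod (D.prod D))).map (F3 β)).map pr2 = π
    rw [Measure.map_map measurable_pr2 measurable_F3]
    conv_rhs => rw [← hfix, ← Gam_pr2 hfix Γ h n]
    unfold PhiL
    rw [← Gen_mp measurable_pr2, Measure.map_map measurable_PhiFun (measurable_mp measurable_pr2)]
    congr 1
    funext q
    simp only [Function.comp_apply, PhiFun_eq]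
    rfl

/-- weighted distance -/
noncomputable def DD (w : ℝ → ℝ≥0∞) (Γ : Measure (ℝ × (ℝ × ℝ))) : ℝ≥0∞ :=
  ∫⁻ y, ‖y.2.1 - y.2.2‖ₑ * w y.1 ∂Γ

lemma DD_step (hβ : 0 ≤ β) {μ : Measure ℝ} [IsProbabilityMeasure μ] (hμ : IsFix l β D μ)
    {Γ : Measure (ℝ × (ℝ × ℝ))} [IsProbabilityMeasure Γ] (hΓ : Γ.map Prod.fst = μ)
    {w : ℝ → ℝ≥0∞} (hw : Measurable w) :
    DD w ((Gen l (Γ.prod (D.prod D))).map (F3 β)) ≤ DD (Kop l β D μ (c1 β) w) Γ := by
  have h := hom_bound (γ := Γ) (X := Prod.fst) hβ hμ measurable_fst hΓ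
    (Δ := fun y => y.2.1 - y.2.2) (by fun_prop) hw
  unfold DD
  refine le_trans (le_of_eq ?_) h
  have hmm : Measurable (fun y : ℝ × (ℝ × ℝ) => ‖y.2.1 - y.2.2‖ₑ * w y.1) :=
    Measurable.mul (by fun_prop) (hw.comp measurable_fst)
  rw [lintegral_map hmm measurable_F3]
  refine lintegral_congr fun q => ?_
  rw [mul_comm]
  congr 1
  have h1 : (F3 β q).2.1 - (F3 β q).2.2 =
      - rs (fun z : (ℝ × (ℝ × ℝ)) × (ℝ × ℝ) => aA β z.1.1 z.2 * (z.1.2.1 - z.1.2.2)) q := by
    simp only [F3, rs]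
    rw [sub_sub_sub_cancel_left, ← Finset.sum_sub_distrib, ← Finset.sum_neg_distrib]
    refine Finset.sum_congr rfl fun k _ => ?_
    ring
  rw [h1, enorm_neg]

lemma Gam_fst {π : Measure (ℝ × ℝ)} (hfix : PhiL l β D π = π)
    (Γ : Measure (ℝ × (ℝ × ℝ))) [IsProbabilityMeasure Γ] (h : Γ.map pr1 = π) (n : ℕ) :
    (Gam l β D Γ n).map Prod.fst = π.map Prod.snd := by
  rw [← Gam_pr1 hfix Γ h n, Measure.map_map measurable_snd measurable_pr1]
  rfl

lemma DD_iter (hβ : 0 ≤ β) {μ : Measure ℝ} [IsProbabilityMeasure μ] (hμ : IsFix l β D μ)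
    {Γ : Measure (ℝ × (ℝ × ℝ))} [IsProbabilityMeasure Γ]
    (hG : ∀ n, (Gam l β D Γ n).map Prod.fst = μ) :
    ∀ (n : ℕ) {w : ℝ → ℝ≥0∞}, Measurable w →
    DD w (Gam l β D Γ n) ≤ DD ((Kop l β D μ (c1 β))^[n] w) Γ
  | 0, w, _ => le_rfl
  | n + 1, w, hw => by
    have hp : IsProbabilityMeasure (Gam l β D Γ n) := Gam_prob Γ n
    rw [Function.iterate_succ_apply]
    exact (DD_step hβ hμ (hG n) hw).trans (DD_iter hβ hμ hG n (measurable_Kop measurable_c1 hw))

lemma iter_eq_It {μ : Measure ℝ} {c : ℝ → ℝ × ℝ → ℝ≥0∞} : ∀ n,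
    (Kop l β D μ c)^[n] ENNReal.ofReal = It l β D μ c n
  | 0 => rfl
  | n + 1 => by
    rw [Function.iterate_succ_apply', iter_eq_It n]
    rfl

lemma exists_coupling {π π' : Measure (ℝ × ℝ)} [IsProbabilityMeasure π] [IsProbabilityMeasure π']
    (h : π.map Prod.snd = π'.map Prod.snd) :
    ∃ Γ : Measure (ℝ × (ℝ × ℝ)), IsProbabilityMeasure Γ ∧ Γ.map pr1 = π ∧ Γ.map pr2 = π' := by
  set ρ := π.map Prod.swap with hρ
  set ρ' := π'.map Prod.swap with hρ'
  have hpρ : IsProbabilityMeasure ρ := Measure.isProbabilityMeasure_map measurable_swap.aemeasurable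
  have hpρ' : IsProbabilityMeasure ρ' :=
    Measure.isProbabilityMeasure_map measurable_swap.aemeasurable
  have hf : ρ.fst = ρ'.fst := by
    rw [Measure.fst, Measure.fst, hρ, hρ', Measure.map_map measurable_fst measurable_swap,
      Measure.map_map measurable_fst measurable_swap]
    exact h
  have e1 := ρ.disintegrate ρ.condKernel
  have e2 := ρ'.disintegrate ρ'.condKernel
  refine ⟨ρ.fst ⊗ₘ (ρ.condKernel ×ₖ ρ'.condKernel), inferInstance, ?_, ?_⟩
  · have h1 : (ρ.fst ⊗ₘ (ρ.condKernel ×ₖ ρ'.condKernel)).map (Prod.map id Prod.fst) = ρ := by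
      rw [← Measure.compProd_map measurable_fst]
      have : (ρ.condKernel ×ₖ ρ'.condKernel).map Prod.fst = ρ.condKernel := by
        rw [← Kernel.fst_eq, Kernel.fst_prod]
      rw [this, e1]
    have h2 : pr1 = Prod.swap ∘ (Prod.map id Prod.fst : ℝ × (ℝ × ℝ) → ℝ × ℝ) := by
      funext y; rfl
    rw [h2, ← Measure.map_map measurable_swap (by fun_prop), h1, hρ,
      Measure.map_map measurable_swap measurable_swap]
    simp
  · have h1 : (ρ.fst ⊗ₘ (ρ.condKernel ×ₖ ρ'.condKernel)).map (Prod.map id Prod.snd) = ρ' := by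
      rw [← Measure.compProd_map measurable_snd]
      have : (ρ.condKernel ×ₖ ρ'.condKernel).map Prod.snd = ρ'.condKernel := by
        rw [← Kernel.snd_eq, Kernel.snd_prod]
      rw [this, hf, e2]
    have h2 : pr2 = Prod.swap ∘ (Prod.map id Prod.snd : ℝ × (ℝ × ℝ) → ℝ × ℝ) := by
      funext y; rfl
    rw [h2, ← Measure.map_map measurable_swap (by fun_prop), h1, hρ',
      Measure.map_map measurable_swap measurable_swap]
    simp

lemma norm_exp_sub_le (a b : ℝ) :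
    ‖Complex.exp (a * Complex.I) - Complex.exp (b * Complex.I)‖ₑ ≤ ‖a - b‖ₑ := by
  have h1 : Complex.exp (a * Complex.I) - Complex.exp (b * Complex.I) =
      Complex.exp (b * Complex.I) * (Complex.exp (Complex.I * ((a - b : ℝ) : ℂ)) - 1) := by
    rw [mul_sub, ← Complex.exp_add, mul_one]
    congr 2
    push_cast
    ring
  rw [h1, enorm_mul]
  have h2 : ‖Complex.exp (b * Complex.I)‖ₑ = 1 := by
    rw [← ofReal_norm, Complex.norm_exp_ofReal_mul_I, ENNReal.ofReal_one]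
  rw [h2, one_mul]
  exact Real.enorm_exp_I_mul_ofReal_sub_one_le

lemma charFun_close {Γ : Measure (ℝ × (ℝ × ℝ))} [IsProbabilityMeasure Γ]
    (L : StrongDual ℝ (ℝ × ℝ)) :
    ‖charFunDual (Γ.map pr1) L - charFunDual (Γ.map pr2) L‖ₑ ≤
      ‖L (1, 0)‖ₑ * DD (fun _ => 1) Γ := by
  rw [charFunDual_apply, charFunDual_apply,
    integral_map measurable_pr1.aemeasurable (by fun_prop),
    integral_map measurable_pr2.aemeasurable (by fun_prop)]
  have hb : ∀ f : ℝ × (ℝ × ℝ) → ℝ, Measurable f →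
      Integrable (fun y => Complex.exp ((f y : ℂ) * Complex.I)) Γ := by
    intro f hf
    refine Integrable.of_bound (C := 1) (by fun_prop) (Eventually.of_forall fun y => ?_)
    rw [Complex.norm_exp_ofReal_mul_I]
  rw [← integral_sub (hb _ (by exact L.continuous.measurable.comp measurable_pr1))
    (hb _ (by exact L.continuous.measurable.comp measurable_pr2))]
  refine (enorm_integral_le_lintegral_enorm _).trans ?_
  unfold DD
  simp only [mul_one]
  rw [← lintegral_const_mul _ (by fun_prop)]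
  refine lintegral_mono fun y => ?_
  refine (norm_exp_sub_le _ _).trans ?_
  rw [← enorm_mul]
  have : L (pr1 y) - L (pr2 y) = L (1, 0) * (y.2.1 - y.2.2) := by
    rw [← map_sub]
    have h3 : pr1 y - pr2 y = (y.2.1 - y.2.2) • ((1, 0) : ℝ × ℝ) := by
      simp [pr1, pr2]
    rw [h3, map_smul, smul_eq_mul, mul_comm]
  rw [this]

theorem unique_L1 (hβ : 0 ≤ β) (hD : ∫⁻ x, ENNReal.ofReal (x ^ 2) ∂D ≠ ∞)
    {π π' : Measure (ℝ × ℝ)} [IsProbabilityMeasure π] [IsProbabilityMeasure π']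
    (hm : ∀ᵐ p ∂π, p.2 ∈ Icc (0 : ℝ) 1) (hm' : ∀ᵐ p ∂π', p.2 ∈ Icc (0 : ℝ) 1)
    (hi : Integrable (fun p => p.2 * p.1) π) (hi' : Integrable (fun p => p.2 * p.1) π')
    (hf : PhiL l β D π = π) (hf' : PhiL l β D π' = π') : π = π' := by
  have f1 := isFix_snd hf hm
  have f2 := isFix_snd hf' hm'
  set μ := π.map Prod.snd with hμdef
  have hpμ : IsProbabilityMeasure μ := Measure.isProbabilityMeasure_map measurable_snd.aemeasurable
  have hpμ' : IsProbabilityMeasure (π'.map Prod.snd) :=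
    Measure.isProbabilityMeasure_map measurable_snd.aemeasurable
  have hμμ := fix_unique hβ f1 f2
  obtain ⟨Γ, hΓ, g1, g2⟩ := exists_coupling hμμ
  obtain ⟨θ, hθ0, hθ1, hθ⟩ := It_c1_bound (l := l) hβ hD
  have hG := Gam_fst hf Γ g1
  have h0 : ∀ᵐ x ∂μ, 0 ≤ x := (f1.pos hβ).mono fun x hx => hx.le
  have hΓ0 : ∀ᵐ y ∂Γ, 0 ≤ y.1 := by
    have : Γ.map Prod.fst = μ := hG 0
    rw [← this] at h0
    exact ae_of_ae_map measurable_fst.aemeasurable h0
  -- finiteness of the initial distance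
  set C0 : ℝ≥0∞ := DD ENNReal.ofReal Γ with hC0
  have hC0fin : C0 ≠ ∞ := by
    have i1 : ∫⁻ p, ‖p.2 * p.1‖ₑ ∂π ≠ ∞ := hi.2.ne
    have i2 : ∫⁻ p, ‖p.2 * p.1‖ₑ ∂π' ≠ ∞ := hi'.2.ne
    rw [← g1, lintegral_map (by fun_prop) measurable_pr1] at i1
    rw [← g2, lintegral_map (by fun_prop) measurable_pr2] at i2
    refine ne_of_lt (lt_of_le_of_lt ?_ (ENNReal.add_lt_top.2 ⟨i1.lt_top, i2.lt_top⟩))
    rw [← lintegral_add_left (by
      have : Measurable (fun p : ℝ × ℝ => ‖p.2 * p.1‖ₑ) := by fun_prop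
      exact this.comp measurable_pr1)]
    rw [hC0]
    unfold DD
    refine lintegral_mono_ae ?_
    filter_upwards [hΓ0] with y hy
    have e1 : ENNReal.ofReal y.1 = ‖y.1‖ₑ := by
      rw [Real.enorm_eq_ofReal hy]
    rw [e1, ← enorm_mul]
    have e2 : (y.2.1 - y.2.2) * y.1 = (pr1 y).2 * (pr1 y).1 - (pr2 y).2 * (pr2 y).1 := by
      simp only [pr1, pr2]; ring
    rw [e2]
    exact enorm_sub_le
  set κ := kap l β D with hκ
  have hκfin : κ ≠ ∞ := kap_ne_top hD
  have hbound : ∀ n, DD ENNReal.ofReal (Gam l β D Γ n) ≤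
      (1 + κ) * C0 * ENNReal.ofReal (θ ^ n) := by
    intro n
    refine (DD_iter hβ f1 hG n ENNReal.measurable_ofReal).trans ?_
    rw [iter_eq_It]
    unfold DD
    calc ∫⁻ y, ‖y.2.1 - y.2.2‖ₑ * It l β D μ (c1 β) n y.1 ∂Γ
        ≤ ∫⁻ y, ((1 + κ) * ENNReal.ofReal (θ ^ n)) *
            (‖y.2.1 - y.2.2‖ₑ * ENNReal.ofReal y.1) ∂Γ := by
          refine lintegral_mono_ae ?_
          filter_upwards [hΓ0] with y hy
          calc ‖y.2.1 - y.2.2‖ₑ * It l β D μ (c1 β) n y.1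
              ≤ ‖y.2.1 - y.2.2‖ₑ * ((1 + κ) * ENNReal.ofReal (θ ^ n) * ENNReal.ofReal y.1) :=
                mul_le_mul' le_rfl (hθ μ f1 n y.1 hy)
            _ = _ := by ring
      _ = (1 + κ) * C0 * ENNReal.ofReal (θ ^ n) := by
          rw [lintegral_const_mul _ (by fun_prop)]
          rw [hC0]
          unfold DD
          ring
  have hbound1 : ∀ n, DD (fun _ => 1) (Gam l β D Γ (n + 1)) ≤
      κ * ((1 + κ) * C0) * ENNReal.ofReal (θ ^ n) := by
    intro n
    have hp : IsProbabilityMeasure (Gam l β D Γ n) := Gam_prob Γ n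
    refine (DD_step hβ f1 (hG n) measurable_const).trans ?_
    have hΓn : ∀ᵐ y ∂(Gam l β D Γ n), 0 ≤ y.1 := by
      have : (Gam l β D Γ n).map Prod.fst = μ := hG n
      rw [← this] at h0
      exact ae_of_ae_map measurable_fst.aemeasurable h0
    calc DD (Kop l β D μ (c1 β) fun _ => 1) (Gam l β D Γ n)
        ≤ ∫⁻ y, κ * (‖y.2.1 - y.2.2‖ₑ * ENNReal.ofReal y.1) ∂(Gam l β D Γ n) := by
          unfold DD
          refine lintegral_mono_ae ?_
          filter_upwards [hΓn] with y hy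
          calc ‖y.2.1 - y.2.2‖ₑ * Kop l β D μ (c1 β) (fun _ => 1) y.1
              ≤ ‖y.2.1 - y.2.2‖ₑ * (κ * ENNReal.ofReal y.1) :=
                mul_le_mul' le_rfl (Kop_one_le hβ hy)
            _ = _ := by ring
      _ = κ * DD ENNReal.ofReal (Gam l β D Γ n) := by
          rw [lintegral_const_mul _ (by fun_prop)]
          rfl
      _ ≤ κ * ((1 + κ) * C0 * ENNReal.ofReal (θ ^ n)) := by
          gcongr; exact hbound n
      _ = _ := by ring
  -- conclusion
  refine Measure.ext_of_charFunDual (funext fun L => ?_)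
  have hle : ∀ n, ‖charFunDual π L - charFunDual π' L‖ₑ ≤
      ‖L (1, 0)‖ₑ * (κ * ((1 + κ) * C0)) * ENNReal.ofReal (θ ^ n) := by
    intro n
    have hp : IsProbabilityMeasure (Gam l β D Γ (n + 1)) := Gam_prob Γ (n + 1)
    have h1 := charFun_close (Γ := Gam l β D Γ (n + 1)) L
    rw [Gam_pr1 hf Γ g1, Gam_pr2 hf' Γ g2] at h1
    refine h1.trans ?_
    rw [mul_assoc]
    gcongr
    exact hbound1 n
  have hlim : Tendsto (fun n : ℕ => ‖L (1, 0)‖ₑ * (κ * ((1 + κ) * C0)) *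
      ENNReal.ofReal (θ ^ n)) atTop (𝓝 (‖L (1, 0)‖ₑ * (κ * ((1 + κ) * C0)) * 0)) := by
    refine ENNReal.Tendsto.const_mul ?_ (Or.inr ?_)
    · have := ENNReal.tendsto_ofReal (tendsto_pow_atTop_nhds_zero_of_lt_one hθ0.le hθ1)
      simpa using this
    · refine ENNReal.mul_ne_top enorm_ne_top (ENNReal.mul_ne_top hκfin
        (ENNReal.mul_ne_top (by simp [hκfin]) hC0fin))
  rw [mul_zero] at hlim
  have h3 : ‖charFunDual π L - charFunDual π' L‖ₑ ≤ 0 := ge_of_tendsto' hlim hle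
  have h4 : charFunDual π L - charFunDual π' L = 0 := by
    rw [← enorm_eq_zero]; exact le_antisymm h3 bot_le
  exact sub_eq_zero.1 h4

end Pool.Agent.Q287.JR
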